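import Mathlib

open Polynomial Set

namespace Pool.Agent.Results.MP_832e94_an.NTwo

/-- the class `E_n(D)`: entire functions whose `n`-th derivative is bounded by one on the closed
unit disc -/
def InE (n : ℕ) (g : ℂ → ℂ) : Prop :=
  Differentiable ℂ g ∧ ∀ w : ℂ, ‖w‖ ≤ 1 → ‖iteratedDeriv n g w‖ ≤ 1

/-- multiplicity of the point `w` in the node list `z` -/
noncomputable def mult {n : ℕ} (z : Fin n → ℂ) (w : ℂ) : ℕ :=
  (Finset.univ.filter (fun j => z j = w)).card

/-- `f(x|z) = ∏ (x - z_j)` -/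
noncomputable def nodePoly {n : ℕ} (z : Fin n → ℂ) : ℂ[X] := ∏ j, (X - C (z j))

/-- self-conjugate node list: `f` has real coefficients (a point and its conjugate have the same
multiplicity) and every real number has even multiplicity -/
def SelfConj {n : ℕ} (z : Fin n → ℂ) : Prop :=
  (∀ w : ℂ, mult z ((starRingEnd ℂ) w) = mult z w) ∧ ∀ r : ℝ, Even (mult z (r : ℂ))

/-- `p` is the Hermite interpolant of `g` at the node list `z` -/
def IsInterpolant {n : ℕ} (g : ℂ → ℂ) (z : Fin n → ℂ) (p : ℂ[X]) : Prop :=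
  p.degree < n ∧ ∀ w : ℂ, ∀ i < mult z w,
    iteratedDeriv i (fun u => g u - p.eval u) w = 0

/-- the equality of Q1 for the given `n`, `k` and node list -/
def Equality (n k : ℕ) (z : Fin n → ℂ) : Prop :=
  ∃ M : ℝ,
    IsGreatest {r : ℝ | ∃ x : ℝ, x ∈ Icc (-1 : ℝ) 1 ∧
      r = ‖(derivative^[k] (nodePoly z)).eval (x : ℂ)‖ / (n.factorial : ℝ)} M ∧
    IsLUB {r : ℝ | ∃ g : ℂ → ℂ, InE n g ∧ ∃ p : ℂ[X], IsInterpolant g z p ∧
      ∃ x : ℝ, x ∈ Icc (-1 : ℝ) 1 ∧
        r = ‖iteratedDeriv k (fun w => g w - p.eval w) (x : ℂ)‖} M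

/-- second derivative bound gives a Lipschitz bound for the first derivative on the disc -/
theorem lip {h : ℂ → ℂ} (hd : Differentiable ℂ h)
    (hb : ∀ w : ℂ, ‖w‖ ≤ 1 → ‖deriv (deriv h) w‖ ≤ 1) {x w : ℂ} (hx : ‖x‖ ≤ 1) (hw : ‖w‖ ≤ 1) :
    ‖deriv h w - deriv h x‖ ≤ ‖w - x‖ := by
  have hd1 : Differentiable ℂ (deriv h) := hd.deriv
  have := (convex_closedBall (0 : ℂ) 1).norm_image_sub_le_of_norm_deriv_le (f := deriv h) (C := 1)
    (fun y _ => hd1 y) (fun y hy => hb y (by simpa using hy))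
    (show x ∈ Metric.closedBall (0 : ℂ) 1 by simpa using hx)
    (show w ∈ Metric.closedBall (0 : ℂ) 1 by simpa using hw)
  simpa using this

/-- quadratic bound along a straight segment -/
theorem quad {F : ℂ → ℂ} (hF : Differentiable ℂ F) {x z : ℂ} (hx : ‖x‖ ≤ 1) (hz : ‖z‖ ≤ 1)
    (hF0 : F x = 0) (hb : ∀ w : ℂ, ‖w‖ ≤ 1 → ‖deriv F w‖ ≤ ‖w - x‖) :
    ‖F z‖ ≤ ‖z - x‖ ^ 2 / 2 := by
  have key := image_norm_le_of_norm_deriv_right_le_deriv_boundary
    (f := fun t : ℝ => F (x + (t : ℂ) * (z - x)))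
    (f' := fun t : ℝ => deriv F (x + (t : ℂ) * (z - x)) * (z - x))
    (a := 0) (b := 1) (B := fun t : ℝ => t ^ 2 * (‖z - x‖ ^ 2 / 2))
    (B' := fun t : ℝ => 2 * t * (‖z - x‖ ^ 2 / 2)) ?_ ?_ ?_ ?_ ?_
    (x := 1) (by simp)
  · simpa using key
  · apply Continuous.continuousOn
    exact hF.continuous.comp (by fun_prop)
  · intro t ht
    apply HasDerivAt.hasDerivWithinAt
    have h1 : HasDerivAt (fun t : ℝ => x + (t : ℂ) * (z - x)) (z - x) t := by
      have := ((Complex.ofRealCLM.hasDerivAt (x := t)).mul_const (z - x)).const_add x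
      simpa using this
    exact (hF _).hasDerivAt.comp_of_eq t h1 rfl
  · simp [hF0]
  · intro t
    have := (hasDerivAt_pow 2 t).mul_const (‖z - x‖ ^ 2 / 2)
    simpa using this
  · intro t ht
    have hmem : ‖x + (t : ℂ) * (z - x)‖ ≤ 1 := by
      have : x + (t : ℂ) * (z - x) ∈ Metric.closedBall (0 : ℂ) 1 := by
        have hc := convex_closedBall (0 : ℂ) 1
        have := hc (show x ∈ Metric.closedBall (0 : ℂ) 1 by simpa using hx)
          (show z ∈ Metric.closedBall (0 : ℂ) 1 by simpa using hz)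
          (show 0 ≤ 1 - t by linarith [ht.2]) ht.1 (by ring)
        convert this using 1
        simp [Complex.real_smul]
        ring
      simpa using this
    rw [norm_mul]
    calc ‖deriv F (x + (t : ℂ) * (z - x))‖ * ‖z - x‖
        ≤ ‖x + (t : ℂ) * (z - x) - x‖ * ‖z - x‖ := by gcongr; exact hb _ hmem
      _ = 2 * t * (‖z - x‖ ^ 2 / 2) := by
        have : x + (t : ℂ) * (z - x) - x = (t : ℂ) * (z - x) := by ring
        rw [this, norm_mul, Complex.norm_real, Real.norm_of_nonneg ht.1]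
        ring


/-- the bound along a hyperbola branch: in the coordinate `(w-x)^2` the path is a straight
segment -/
theorem hyper {F : ℂ → ℂ} (hF : Differentiable ℂ F) {x a b : ℝ} (hx : |x| ≤ 1)
    (hab : a ^ 2 + b ^ 2 ≤ 1) (hb0 : 0 < b) (hD : b < |x - a|)
    (hb : ∀ w : ℂ, ‖w‖ ≤ 1 → ‖deriv F w‖ ≤ ‖w - x‖) :
    ‖F ((a : ℂ) + (b : ℂ) * Complex.I) - F ((a : ℂ) + ((-b : ℝ) : ℂ) * Complex.I)‖
      ≤ 2 * b * |x - a| := by
  obtain ⟨σ, hσ, hσD⟩ : ∃ σ : ℝ, σ ^ 2 = 1 ∧ σ * |x - a| = a - x := by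
    rcases le_total 0 (x - a) with h | h
    · exact ⟨-1, by norm_num, by rw [abs_of_nonneg h]; ring⟩
    · exact ⟨1, by norm_num, by rw [abs_of_nonpos h]; ring⟩
  set D := |x - a| with hDdef
  have hDpos : 0 < D := lt_trans hb0 hD
  set cc := D ^ 2 - b ^ 2 with hcc
  have hccpos : 0 < cc := by nlinarith
  have hpos : ∀ q : ℝ, 0 < q ^ 2 + cc := fun q => by positivity
  have hppos : ∀ q : ℝ, 0 < Real.sqrt (q ^ 2 + cc) := fun q => Real.sqrt_pos.2 (hpos q)
  have hpsq : ∀ q : ℝ, Real.sqrt (q ^ 2 + cc) ^ 2 = q ^ 2 + cc := fun q =>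
    Real.sq_sqrt (hpos q).le
  have hpb : Real.sqrt (b ^ 2 + cc) = D := by
    rw [show b ^ 2 + cc = D ^ 2 by rw [hcc]; ring]
    exact Real.sqrt_sq hDpos.le
  have hpnb : Real.sqrt ((-b) ^ 2 + cc) = D := by
    rw [neg_sq]; exact hpb
  have hpderiv : ∀ q : ℝ, HasDerivAt (fun q : ℝ => Real.sqrt (q ^ 2 + cc))
      (q / Real.sqrt (q ^ 2 + cc)) q := by
    intro q
    have h1 : HasDerivAt (fun q : ℝ => q ^ 2 + cc) (2 * q) q := by
      simpa using (hasDerivAt_pow 2 q).add_const cc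
    have h2 := h1.sqrt (hpos q).ne'
    convert h2 using 1
    field_simp
  let γ : ℝ → ℂ := fun q => ((x + σ * Real.sqrt (q ^ 2 + cc) : ℝ) : ℂ) + (q : ℂ) * Complex.I
  let γ' : ℝ → ℂ := fun q => ((σ * (q / Real.sqrt (q ^ 2 + cc)) : ℝ) : ℂ) + Complex.I
  have hγ : ∀ q : ℝ, HasDerivAt γ (γ' q) q := by
    intro q
    have h1 : HasDerivAt (fun q : ℝ => x + σ * Real.sqrt (q ^ 2 + cc))
        (σ * (q / Real.sqrt (q ^ 2 + cc))) q := by
      simpa using ((hpderiv q).const_mul σ).const_add x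
    have h2 : HasDerivAt (fun q : ℝ => (q : ℂ) * Complex.I) Complex.I q := by
      have := ((Complex.ofRealCLM.hasDerivAt (x := q)).mul_const Complex.I)
      simpa using this
    exact (h1.ofReal_comp).add h2
  have hcomp : ∀ q : ℝ, HasDerivAt (fun q : ℝ => F (γ q)) (deriv F (γ q) * γ' q) q := fun q =>
    HasDerivAt.comp q (hF (γ q)).hasDerivAt (hγ q)
  have hγb : γ b = (a : ℂ) + (b : ℂ) * Complex.I := by
    simp only [γ]
    rw [hpb, hσD]
    push_cast
    ring
  have hγnb : γ (-b) = (a : ℂ) + ((-b : ℝ) : ℂ) * Complex.I := by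
    simp only [γ]
    rw [hpnb, hσD]
    push_cast
    ring
  have hmem : ∀ q : ℝ, |q| ≤ b → ‖γ q‖ ≤ 1 := by
    intro q hq
    have hq2 : q ^ 2 ≤ b ^ 2 := by
      rw [← sq_abs q]; exact pow_le_pow_left₀ (abs_nonneg _) hq 2
    have hp := hppos q
    have hp2 := hpsq q
    set p := Real.sqrt (q ^ 2 + cc) with hpdef
    have hpD : p ≤ D := by
      apply le_of_sq_le_sq _ hDpos.le
      nlinarith
    set l := p / D with hl
    have hl0 : 0 < l := div_pos hp hDpos
    have hl1 : l ≤ 1 := (div_le_one hDpos).2 hpD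
    have hlD : l * D = p := by rw [hl]; field_simp
    have hq3 : q ^ 2 ≤ l ^ 2 * b ^ 2 := by
      have h1 : q ^ 2 * D ^ 2 ≤ p ^ 2 * b ^ 2 := by
        rw [hp2, hcc]
        nlinarith [mul_nonneg (sub_nonneg.2 hq2) hccpos.le]
      have h2 : l ^ 2 * b ^ 2 * D ^ 2 = p ^ 2 * b ^ 2 := by rw [← hlD]; ring
      have hD2 : 0 < D ^ 2 := by positivity
      nlinarith
    have hx2 : x ^ 2 ≤ 1 := by rw [← sq_abs x]; nlinarith [abs_nonneg x]
    have hnorm : ‖γ q‖ ^ 2 = (x + σ * p) ^ 2 + q ^ 2 := by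
      simp only [γ]
      rw [← Complex.normSq_eq_norm_sq, Complex.normSq_add_mul_I]
    have hxp : x + σ * p = (1 - l) * x + l * a := by
      rw [← hlD]
      linear_combination l * hσD
    have hfin : ‖γ q‖ ^ 2 ≤ 1 := by
      rw [hnorm, hxp]
      have hconv : ((1 - l) * x + l * a) ^ 2 ≤ (1 - l) * x ^ 2 + l * a ^ 2 := by
        nlinarith [mul_nonneg (mul_nonneg hl0.le (sub_nonneg.2 hl1)) (sq_nonneg (x - a))]
      have hlb : l ^ 2 * b ^ 2 ≤ l * b ^ 2 := by
        nlinarith [mul_nonneg (mul_nonneg hl0.le (sub_nonneg.2 hl1)) (sq_nonneg b)]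
      nlinarith
    exact (pow_le_one_iff_of_nonneg (norm_nonneg _) two_ne_zero).1 hfin
  have key := image_norm_le_of_norm_deriv_right_le_deriv_boundary
    (f := fun q : ℝ => F (γ q) - F (γ (-b)))
    (f' := fun q : ℝ => deriv F (γ q) * γ' q)
    (a := -b) (b := b) (B := fun q : ℝ => q * Real.sqrt (q ^ 2 + cc) + b * D)
    (B' := fun q : ℝ => 1 * Real.sqrt (q ^ 2 + cc) + q * (q / Real.sqrt (q ^ 2 + cc)))
    ?_ ?_ ?_ ?_ ?_ (x := b) ⟨by linarith, le_refl _⟩
  · rw [hγb, hγnb] at key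
    refine key.trans (le_of_eq ?_)
    show b * Real.sqrt (b ^ 2 + cc) + b * D = 2 * b * D
    rw [hpb]; ring
  · intro q _
    have h := ((hcomp q).sub_const (F (γ (-b)))).continuousAt
    exact h.continuousWithinAt
  · intro q _
    have h := (hcomp q).sub_const (F (γ (-b)))
    exact h.hasDerivWithinAt
  · show ‖F (γ (-b)) - F (γ (-b))‖ ≤ -b * Real.sqrt ((-b) ^ 2 + cc) + b * D
    rw [hpnb]; simp
  · intro q
    have h : HasDerivAt (fun q : ℝ => q * Real.sqrt (q ^ 2 + cc))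
        (1 * Real.sqrt (q ^ 2 + cc) + q * (q / Real.sqrt (q ^ 2 + cc))) q :=
      (hasDerivAt_id' q).fun_mul (hpderiv q)
    exact h.add_const (b * D)
  · intro q hq
    have hqb : |q| ≤ b := abs_le.2 ⟨hq.1, hq.2.le⟩
    have hp := hppos q
    have hp2 := hpsq q
    rw [norm_mul]
    have h1 := hb (γ q) (hmem q hqb)
    have hn1 : ‖γ q - x‖ ^ 2 = Real.sqrt (q ^ 2 + cc) ^ 2 + q ^ 2 := by
      have : γ q - x = ((σ * Real.sqrt (q ^ 2 + cc) : ℝ) : ℂ) + (q : ℂ) * Complex.I := by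
        simp only [γ]; push_cast; ring
      rw [this, ← Complex.normSq_eq_norm_sq, Complex.normSq_add_mul_I, mul_pow, hσ, one_mul]
    have hn2 : ‖γ' q‖ ^ 2 = (q / Real.sqrt (q ^ 2 + cc)) ^ 2 + 1 := by
      have : γ' q = ((σ * (q / Real.sqrt (q ^ 2 + cc)) : ℝ) : ℂ) + ((1 : ℝ) : ℂ) * Complex.I := by
        simp only [γ']; push_cast; ring
      rw [this, ← Complex.normSq_eq_norm_sq, Complex.normSq_add_mul_I, mul_pow, hσ, one_mul,
        one_pow]
    set p := Real.sqrt (q ^ 2 + cc) with hpdef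
    have hn3 : (‖γ q - x‖ * ‖γ' q‖) ^ 2 = (1 * p + q * (q / p)) ^ 2 := by
      rw [mul_pow, hn1, hn2]
      field_simp
      ring
    have hnn : 0 ≤ 1 * p + q * (q / p) := by
      have : q * (q / p) = q ^ 2 / p := by ring
      rw [this]; positivity
    have hle : ‖γ q - x‖ * ‖γ' q‖ ≤ 1 * p + q * (q / p) := by
      apply le_of_sq_le_sq _ hnn
      exact hn3.le
    exact (mul_le_mul_of_nonneg_right h1 (norm_nonneg _)).trans hle

/-- The Taylor remainder of `h` at the real point `x`. -/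
theorem taylor {h : ℂ → ℂ} (hd : Differentiable ℂ h)
    (hb : ∀ w : ℂ, ‖w‖ ≤ 1 → ‖deriv (deriv h) w‖ ≤ 1) {x : ℂ} (hx : ‖x‖ ≤ 1) :
    ∃ F : ℂ → ℂ, Differentiable ℂ F ∧ F x = 0 ∧
      (∀ w, F w = h w - h x - deriv h x * (w - x)) ∧
      (∀ w, deriv F w = deriv h w - deriv h x) ∧
      (∀ w : ℂ, ‖w‖ ≤ 1 → ‖deriv F w‖ ≤ ‖w - x‖) := by
  have hder : ∀ w, HasDerivAt (fun w => h w - h x - deriv h x * (w - x))
      (deriv h w - deriv h x) w := by
    intro w
    have h1 := ((hd w).hasDerivAt.sub_const (h x)).fun_sub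
      (((hasDerivAt_id' w).sub_const x).const_mul (deriv h x))
    simpa using h1
  refine ⟨fun w => h w - h x - deriv h x * (w - x), fun w => (hder w).differentiableAt,
    by simp, fun w => rfl, fun w => (hder w).deriv, fun w hw => ?_⟩
  rw [(hder w).deriv]
  exact lip hd hb hx hw

theorem core1 {h : ℂ → ℂ} (hd : Differentiable ℂ h)
    (hb : ∀ w : ℂ, ‖w‖ ≤ 1 → ‖deriv (deriv h) w‖ ≤ 1) {x a b : ℝ} (hx : |x| ≤ 1)
    (hab : a ^ 2 + b ^ 2 ≤ 1) (hb0 : 0 < b)
    (h1 : h ((a : ℂ) + (b : ℂ) * Complex.I) = 0)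
    (h2 : h ((a : ℂ) + ((-b : ℝ) : ℂ) * Complex.I) = 0) :
    ‖deriv h x‖ ≤ 1 + |a| := by
  have hxn : ‖(x : ℂ)‖ ≤ 1 := by rw [Complex.norm_real]; exact hx
  obtain ⟨F, hF, hF0, hFv, -, hFb⟩ := taylor hd hb hxn
  have hdiff : F ((a : ℂ) + (b : ℂ) * Complex.I) - F ((a : ℂ) + ((-b : ℝ) : ℂ) * Complex.I)
      = -(deriv h x * (2 * b * Complex.I)) := by
    rw [hFv, hFv, h1, h2]; push_cast; ring
  have hnorm : ‖F ((a : ℂ) + (b : ℂ) * Complex.I) - F ((a : ℂ) + ((-b : ℝ) : ℂ) * Complex.I)‖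
      = ‖deriv h x‖ * (2 * b) := by
    rw [hdiff, norm_neg, norm_mul, norm_mul, norm_mul, Complex.norm_real, Complex.norm_I,
      Real.norm_of_nonneg hb0.le]
    simp
  have habs : |x - a| ≤ 1 + |a| := (abs_sub _ _).trans (by linarith)
  rcases lt_or_ge b (|x - a|) with hlt | hge
  · have := hyper hF hx hab hb0 hlt hFb
    rw [hnorm] at this
    have : ‖deriv h x‖ ≤ |x - a| := by nlinarith
    linarith
  · have hz : ∀ c : ℝ, c ^ 2 = b ^ 2 → ‖(a : ℂ) + (c : ℂ) * Complex.I‖ ≤ 1 := by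
      intro c hc
      have : ‖(a : ℂ) + (c : ℂ) * Complex.I‖ ^ 2 ≤ 1 := by
        rw [← Complex.normSq_eq_norm_sq, Complex.normSq_add_mul_I, hc]; exact hab
      exact (pow_le_one_iff_of_nonneg (norm_nonneg _) two_ne_zero).1 this
    have hq : ∀ c : ℝ, c ^ 2 = b ^ 2 → ‖F ((a : ℂ) + (c : ℂ) * Complex.I)‖
        ≤ ((x - a) ^ 2 + b ^ 2) / 2 := by
      intro c hc
      have h3 := quad hF hxn (hz c hc) hF0 hFb
      refine h3.trans (le_of_eq ?_)
      have : (a : ℂ) + (c : ℂ) * Complex.I - x = ((a - x : ℝ) : ℂ) + (c : ℂ) * Complex.I := by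
        push_cast; ring
      rw [this, ← Complex.normSq_eq_norm_sq, Complex.normSq_add_mul_I, hc]
      ring
    have h4 := norm_sub_le (F ((a : ℂ) + (b : ℂ) * Complex.I))
      (F ((a : ℂ) + ((-b : ℝ) : ℂ) * Complex.I))
    rw [hnorm] at h4
    have h5 := hq b rfl
    have h6 := hq (-b) (by ring)
    have h7 : (x - a) ^ 2 ≤ b ^ 2 := by
      rw [← sq_abs (x - a)]; exact pow_le_pow_left₀ (abs_nonneg _) hge 2
    have h8 : ‖deriv h x‖ ≤ b := by nlinarith
    have h9 : b ≤ 1 := by nlinarith [sq_nonneg a]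
    linarith [abs_nonneg a]

theorem core0 {h : ℂ → ℂ} (hd : Differentiable ℂ h)
    (hb : ∀ w : ℂ, ‖w‖ ≤ 1 → ‖deriv (deriv h) w‖ ≤ 1) {x a b : ℝ} (hx : |x| ≤ 1)
    (hab : a ^ 2 + b ^ 2 ≤ 1) (hb0 : 0 < b)
    (h1 : h ((a : ℂ) + (b : ℂ) * Complex.I) = 0)
    (h2 : h ((a : ℂ) + ((-b : ℝ) : ℂ) * Complex.I) = 0) :
    ‖h x‖ ≤ ((x - a) ^ 2 + b ^ 2) / 2 := by
  have hxn : ‖(x : ℂ)‖ ≤ 1 := by rw [Complex.norm_real]; exact hx
  obtain ⟨F, hF, hF0, hFv, hFd, hFb⟩ := taylor hd hb hxn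
  have hz : ∀ c : ℝ, c ^ 2 = b ^ 2 → ‖(a : ℂ) + (c : ℂ) * Complex.I‖ ≤ 1 := by
    intro c hc
    have : ‖(a : ℂ) + (c : ℂ) * Complex.I‖ ^ 2 ≤ 1 := by
      rw [← Complex.normSq_eq_norm_sq, Complex.normSq_add_mul_I, hc]; exact hab
    exact (pow_le_one_iff_of_nonneg (norm_nonneg _) two_ne_zero).1 this
  have hzx : ∀ c : ℝ, c ^ 2 = b ^ 2 →
      ‖(a : ℂ) + (c : ℂ) * Complex.I - x‖ ^ 2 = (x - a) ^ 2 + b ^ 2 := by
    intro c hc
    have : (a : ℂ) + (c : ℂ) * Complex.I - x = ((a - x : ℝ) : ℂ) + (c : ℂ) * Complex.I := by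
      push_cast; ring
    rw [this, ← Complex.normSq_eq_norm_sq, Complex.normSq_add_mul_I, hc]
    ring
  -- the difference quotient of `F`
  have hN : ∀ w : ℂ, ‖w‖ ≤ 1 → ‖deriv F w * (w - x) - F w‖ ≤ ‖w - x‖ ^ 2 / 2 := by
    have hFd' : Differentiable ℂ (deriv F) := hF.deriv
    have hder : ∀ w, HasDerivAt (fun w => deriv F w * (w - x) - F w)
        (deriv (deriv F) w * (w - x)) w := by
      intro w
      have h3 : HasDerivAt (fun w => deriv F w * (w - x) - F w)
          (deriv (deriv F) w * (w - x) + deriv F w * 1 - deriv F w) w :=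
        ((hFd' w).hasDerivAt.fun_mul ((hasDerivAt_id' w).sub_const (x : ℂ))).fun_sub
        (hF w).hasDerivAt
      have e : deriv (deriv F) w * (w - x) + deriv F w * 1 - deriv F w
          = deriv (deriv F) w * (w - x) := by ring
      rw [e] at h3
      exact h3
    have hFF : ∀ w, deriv (deriv F) w = deriv (deriv h) w := by
      intro w
      have : deriv F = fun w => deriv h w - deriv h x := funext hFd
      rw [this]
      simp
    intro w hw
    apply quad (F := fun w => deriv F w * (w - x) - F w) (fun w => (hder w).differentiableAt)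
      hxn hw (by simp [hF0])
    intro u hu
    rw [(hder u).deriv, norm_mul, hFF]
    nlinarith [norm_nonneg (u - (x : ℂ)), hb u hu]
  rcases eq_or_ne a x with hax | hax
  · -- the vertical line through `x`
    have hq : ∀ c : ℝ, c ^ 2 = b ^ 2 → ‖F ((a : ℂ) + (c : ℂ) * Complex.I)‖ ≤ b ^ 2 / 2 := by
      intro c hc
      have h3 := quad hF hxn (hz c hc) hF0 hFb
      have e0 : (x - a) ^ 2 + b ^ 2 = b ^ 2 := by rw [hax]; ring
      rw [hzx c hc, e0] at h3
      exact h3
    have hs : F ((a : ℂ) + (b : ℂ) * Complex.I) + F ((a : ℂ) + ((-b : ℝ) : ℂ) * Complex.I)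
        = -(2 * h x) := by
      rw [hFv, hFv, h1, h2, hax]; push_cast; ring
    have h4 := norm_add_le (F ((a : ℂ) + (b : ℂ) * Complex.I))
      (F ((a : ℂ) + ((-b : ℝ) : ℂ) * Complex.I))
    rw [hs, norm_neg, norm_mul] at h4
    have h5 := hq b rfl
    have h6 := hq (-b) (by ring)
    have : ‖(2 : ℂ)‖ = 2 := by simp
    rw [this] at h4
    rw [hax]
    nlinarith
  · -- the segment avoids `x`
    let S : Set ℂ := {w | ‖w‖ ≤ 1} ∩ {w | 0 < (a - x) * (w.re - x)}
    have hSconv : Convex ℝ S := by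
      apply Convex.inter
      · have e : {w : ℂ | ‖w‖ ≤ 1} = Metric.closedBall 0 1 := by ext w; simp
        rw [e]
        exact convex_closedBall _ _
      · intro u hu v hv s t hs ht hst
        simp only [mem_ofPred_eq] at hu hv ⊢
        have e : (a - x) * ((s • u + t • v).re - x)
            = s * ((a - x) * (u.re - x)) + t * ((a - x) * (v.re - x)) := by
          simp only [Complex.add_re, Complex.real_smul, Complex.mul_re, Complex.ofReal_re,
            Complex.ofReal_im, zero_mul, sub_zero]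
          have : t = 1 - s := by linarith
          rw [this]; ring
        rw [e]
        rcases hs.eq_or_lt with hs0 | hs0
        · have : t = 1 := by linarith
          rw [← hs0, this]; simpa using hv
        · have := mul_pos hs0 hu
          have := mul_nonneg ht hv.le
          linarith
    have hne : ∀ w ∈ S, w - x ≠ 0 := by
      intro w hw h0
      have : w = x := by linear_combination h0
      have h3 := hw.2
      simp only [mem_ofPred_eq, this, Complex.ofReal_re, sub_self, mul_zero, lt_irrefl] at h3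
    have hKd : ∀ w ∈ S, HasDerivWithinAt (fun w => F w / (w - x))
        ((deriv F w * (w - x) - F w) / (w - x) ^ 2) S w := by
      intro w hw
      have h3 : HasDerivAt (fun w => F w / (w - x))
          ((deriv F w * (w - x) - F w * 1) / (w - x) ^ 2) w :=
        ((hF w).hasDerivAt.fun_div ((hasDerivAt_id' w).sub_const (x : ℂ)) (hne w hw))
      rw [mul_one] at h3
      exact h3.hasDerivWithinAt
    have hmem : ∀ c : ℝ, c ^ 2 = b ^ 2 → (a : ℂ) + (c : ℂ) * Complex.I ∈ S := by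
      intro c hc
      refine ⟨hz c hc, ?_⟩
      simp only [mem_ofPred_eq, Complex.add_re, Complex.ofReal_re, Complex.mul_re, Complex.I_re,
        mul_zero, Complex.ofReal_im, Complex.I_im, mul_one, sub_self, add_zero]
      exact mul_self_pos.2 (sub_ne_zero.2 hax)
    have hmv := hSconv.norm_image_sub_le_of_norm_hasDerivWithin_le (C := 1 / 2) hKd (by
      intro w hw
      have hp : 0 < ‖w - x‖ := norm_pos_iff.2 (hne w hw)
      rw [norm_div, norm_pow, div_le_iff₀ (by positivity)]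
      have := hN w hw.1
      linarith) (hmem (-b) (by ring)) (hmem b rfl)
    have hK : F ((a : ℂ) + (b : ℂ) * Complex.I) / ((a : ℂ) + (b : ℂ) * Complex.I - x)
        - F ((a : ℂ) + ((-b : ℝ) : ℂ) * Complex.I) / ((a : ℂ) + ((-b : ℝ) : ℂ) * Complex.I - x)
        = h x * (2 * b * Complex.I) / (((a : ℂ) + (b : ℂ) * Complex.I - x)
          * ((a : ℂ) + ((-b : ℝ) : ℂ) * Complex.I - x)) := by
      have e1 := hne _ (hmem b rfl)
      have e2 := hne _ (hmem (-b) (by ring))
      have e3 : 2 * (b : ℂ) * Complex.I = ((a : ℂ) + (b : ℂ) * Complex.I - x)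
          - ((a : ℂ) + ((-b : ℝ) : ℂ) * Complex.I - x) := by push_cast; ring
      rw [hFv, hFv, h1, h2, e3]
      generalize (a : ℂ) + (b : ℂ) * Complex.I - x = Z1 at *
      generalize (a : ℂ) + ((-b : ℝ) : ℂ) * Complex.I - x = Z2 at *
      field_simp
      ring
    have hdist : ‖((a : ℂ) + (b : ℂ) * Complex.I) - ((a : ℂ) + ((-b : ℝ) : ℂ) * Complex.I)‖
        = 2 * b := by
      have : ((a : ℂ) + (b : ℂ) * Complex.I) - ((a : ℂ) + ((-b : ℝ) : ℂ) * Complex.I)
          = ((2 * b : ℝ) : ℂ) * Complex.I := by push_cast; ring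
      rw [this, norm_mul, Complex.norm_real, Complex.norm_I, Real.norm_of_nonneg (by positivity)]
      ring
    rw [hdist, hK, norm_div, norm_mul, norm_mul, norm_mul, norm_mul, Complex.norm_real,
      Complex.norm_I, Real.norm_of_nonneg hb0.le] at hmv
    have hA := hzx b rfl
    have hB := hzx (-b) (by ring)
    have hAB : ‖(a : ℂ) + (b : ℂ) * Complex.I - x‖ = ‖(a : ℂ) + ((-b : ℝ) : ℂ) * Complex.I - x‖ := by
      have := hA.trans hB.symm
      exact (pow_left_inj₀ (norm_nonneg _) (norm_nonneg _) two_ne_zero).1 this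
    rw [← hAB, ← sq, hA] at hmv
    have hpos : 0 < (x - a) ^ 2 + b ^ 2 := by positivity
    rw [div_le_iff₀ hpos] at hmv
    have : ‖(2 : ℂ)‖ = 2 := by simp
    rw [this] at hmv
    nlinarith

theorem mult_two (z : Fin 2 → ℂ) (w : ℂ) :
    mult z w = (if z 0 = w then 1 else 0) + (if z 1 = w then 1 else 0) := by
  unfold mult
  rw [Finset.card_filter, Fin.sum_univ_two]

theorem conj_pair (z : Fin 2 → ℂ) (hz : SelfConj z) : z 1 = (starRingEnd ℂ) (z 0) := by
  obtain ⟨h1, h2⟩ := hz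
  by_cases hr : (starRingEnd ℂ) (z 0) = z 0
  · obtain ⟨r, hr'⟩ := Complex.conj_eq_iff_real.1 hr
    have h3 := h2 r
    rw [mult_two, ← hr'] at h3
    by_cases h4 : z 1 = z 0
    · rw [h4, hr]
    · simp [h4] at h3
  · have h3 := h1 (z 0)
    rw [mult_two, mult_two] at h3
    by_contra h4
    rw [if_neg (fun h => hr h.symm), if_neg h4] at h3
    split_ifs at h3 <;> simp_all

theorem nodePoly_two (z : Fin 2 → ℂ) : nodePoly z = (X - C (z 0)) * (X - C (z 1)) := by
  unfold nodePoly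
  rw [Fin.prod_univ_two]

theorem eval0 (a c x : ℝ) :
    ‖(((x : ℂ) - ((a : ℂ) + (c : ℂ) * Complex.I)) *
      ((x : ℂ) - (starRingEnd ℂ) ((a : ℂ) + (c : ℂ) * Complex.I)))‖ = (x - a) ^ 2 + c ^ 2 := by
  have : ((x : ℂ) - ((a : ℂ) + (c : ℂ) * Complex.I)) *
      ((x : ℂ) - (starRingEnd ℂ) ((a : ℂ) + (c : ℂ) * Complex.I))
      = (((x - a) ^ 2 + c ^ 2 : ℝ) : ℂ) := by
    simp only [map_add, map_mul, Complex.conj_ofReal, Complex.conj_I]
    push_cast
    have := Complex.I_sq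
    linear_combination (-(c : ℂ) ^ 2) * this
  rw [this, Complex.norm_real, Real.norm_of_nonneg (by positivity)]

theorem eval1 (a c x : ℝ) :
    ‖(((x : ℂ) - (starRingEnd ℂ) ((a : ℂ) + (c : ℂ) * Complex.I)) +
      ((x : ℂ) - ((a : ℂ) + (c : ℂ) * Complex.I)))‖ = 2 * |x - a| := by
  have : ((x : ℂ) - (starRingEnd ℂ) ((a : ℂ) + (c : ℂ) * Complex.I)) +
      ((x : ℂ) - ((a : ℂ) + (c : ℂ) * Complex.I))
      = ((2 * (x - a) : ℝ) : ℂ) := by
    simp only [map_add, map_mul, Complex.conj_ofReal, Complex.conj_I]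
    push_cast
    ring
  rw [this, Complex.norm_real, Real.norm_eq_abs, abs_mul]
  simp

theorem exists_far (a : ℝ) : ∃ x : ℝ, x ∈ Icc (-1 : ℝ) 1 ∧ |x - a| = 1 + |a| := by
  rcases le_total 0 a with h | h
  · refine ⟨-1, by simp, ?_⟩
    rw [abs_of_nonneg h, abs_of_nonpos (by linarith)]; ring
  · refine ⟨1, by simp, ?_⟩
    rw [abs_of_nonpos h, abs_of_nonneg (by linarith)]; ring

theorem bounds {h : ℂ → ℂ} (hd : Differentiable ℂ h)
    (hb : ∀ w : ℂ, ‖w‖ ≤ 1 → ‖deriv (deriv h) w‖ ≤ 1) {x a c : ℝ} (hx : |x| ≤ 1)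
    (hac : a ^ 2 + c ^ 2 ≤ 1)
    (h1 : h ((a : ℂ) + (c : ℂ) * Complex.I) = 0)
    (h2 : h ((starRingEnd ℂ) ((a : ℂ) + (c : ℂ) * Complex.I)) = 0)
    (h3 : c = 0 → deriv h a = 0) :
    ‖h x‖ ≤ ((x - a) ^ 2 + c ^ 2) / 2 ∧ ‖deriv h x‖ ≤ 1 + |a| := by
  have hxn : ‖(x : ℂ)‖ ≤ 1 := by rw [Complex.norm_real]; exact hx
  have e : (starRingEnd ℂ) ((a : ℂ) + (c : ℂ) * Complex.I)
      = (a : ℂ) + ((-c : ℝ) : ℂ) * Complex.I := by
    simp only [map_add, map_mul, Complex.conj_ofReal, Complex.conj_I]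
    push_cast
    ring
  rw [e] at h2
  rcases lt_trichotomy c 0 with hc | hc | hc
  · have hab : a ^ 2 + (-c) ^ 2 ≤ 1 := by rwa [neg_sq]
    have h1' : h ((a : ℂ) + ((-(-c) : ℝ) : ℂ) * Complex.I) = 0 := by rw [neg_neg]; exact h1
    refine ⟨?_, core1 hd hb hx hab (by linarith) h2 h1'⟩
    have := core0 hd hb hx hab (by linarith) h2 h1'
    rwa [neg_sq] at this
  · have ha : |a| ≤ 1 := by
      rw [hc] at hac
      exact abs_le_one_iff_mul_self_le_one.2 (by nlinarith)
    have han : ‖(a : ℂ)‖ ≤ 1 := by rw [Complex.norm_real]; exact ha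
    have hda := h3 hc
    have hlip : ∀ w : ℂ, ‖w‖ ≤ 1 → ‖deriv h w‖ ≤ ‖w - a‖ := by
      intro w hw
      have := lip hd hb han hw
      rwa [hda, sub_zero] at this
    have hh : h a = 0 := by simpa [hc] using h1
    have habs : |x - a| ≤ 1 + |a| := (abs_sub _ _).trans (by linarith)
    have hxa : ‖(x : ℂ) - a‖ = |x - a| := by
      rw [← Complex.ofReal_sub, Complex.norm_real, Real.norm_eq_abs]
    refine ⟨?_, (hlip x hxn).trans (by rw [hxa]; exact habs)⟩
    have := quad hd han hxn hh hlip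
    rw [hxa, sq_abs] at this
    rw [hc]
    linarith
  · exact ⟨core0 hd hb hx hac hc h1 h2, core1 hd hb hx hac hc h1 h2⟩

/-- **The case `n = 2` of Q1.** For every self-conjugate list of two nodes in the closed unit
disc and each `k = 0, 1` the equality of Q1 holds. -/
theorem result (z : Fin 2 → ℂ) (hz : ∀ j, ‖z j‖ ≤ 1) (hsc : SelfConj z) (k : ℕ) (hk : k < 2) :
    Equality 2 k z := by
  have hpair := conj_pair z hsc
  obtain ⟨a, c, hac⟩ : ∃ a c : ℝ, z 0 = (a : ℂ) + (c : ℂ) * Complex.I :=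
    ⟨(z 0).re, (z 0).im, (Complex.re_add_im _).symm⟩
  have hnorm : a ^ 2 + c ^ 2 ≤ 1 := by
    have := hz 0
    have h2 : ‖z 0‖ ^ 2 ≤ 1 := pow_le_one₀ (norm_nonneg _) this
    rwa [hac, ← Complex.normSq_eq_norm_sq, Complex.normSq_add_mul_I] at h2
  have ha1 : |a| ≤ 1 := abs_le_one_iff_mul_self_le_one.2 (by nlinarith [sq_nonneg c])
  obtain ⟨x0, hx0, hx0a⟩ := exists_far a
  -- the upper bound for every competitor
  have hupper : ∀ g : ℂ → ℂ, InE 2 g → ∀ p : ℂ[X], IsInterpolant g z p →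
      ∀ x : ℝ, x ∈ Icc (-1 : ℝ) 1 →
        ‖g x - p.eval (x : ℂ)‖ ≤ ((x - a) ^ 2 + c ^ 2) / 2 ∧
        ‖deriv (fun w => g w - p.eval w) (x : ℂ)‖ ≤ 1 + |a| := by
    intro g hg p hp x hx
    have hpd : p.degree < 2 := by exact_mod_cast hp.1
    have hpd1 : p.degree ≤ 1 := by
      rw [Polynomial.degree_le_iff_coeff_zero]
      intro m hm
      apply Polynomial.coeff_eq_zero_of_degree_lt
      refine lt_of_lt_of_le hpd ?_
      have hm1 : 1 < m := by exact_mod_cast hm
      exact_mod_cast hm1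
    have hdd : Differentiable ℂ (fun w => g w - p.eval w) := hg.1.sub p.differentiable
    have hder1 : ∀ w, deriv (fun w => g w - p.eval w) w = deriv g w - p.coeff 1 := by
      intro w
      have e : (fun w => p.eval w) = fun w => p.coeff 0 + p.coeff 1 * w := by
        funext w
        conv_lhs => rw [Polynomial.eq_X_add_C_of_degree_le_one hpd1]
        simp
        ring
      have h4 : HasDerivAt (fun w => p.eval w) (p.coeff 1) w := by
        rw [e]
        simpa using ((hasDerivAt_id' w).const_mul (p.coeff 1)).const_add (p.coeff 0)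
      exact ((hg.1 w).hasDerivAt.fun_sub h4).deriv
    have hb : ∀ w : ℂ, ‖w‖ ≤ 1 → ‖deriv (deriv (fun w => g w - p.eval w)) w‖ ≤ 1 := by
      intro w hw
      have e : deriv (fun w => g w - p.eval w) = fun w => deriv g w - p.coeff 1 := funext hder1
      rw [e]
      have h5 := hg.2 w hw
      rw [iteratedDeriv_succ, iteratedDeriv_one] at h5
      simpa using h5
    have hv : ∀ j : Fin 2, (fun w => g w - p.eval w) (z j) = 0 := by
      intro j
      have h5 := hp.2 (z j) 0 (by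
        rw [mult_two]
        fin_cases j <;> simp)
      rwa [iteratedDeriv_zero] at h5
    have hv0 := hv 0
    have hv1 := hv 1
    rw [hpair] at hv1
    rw [hac] at hv0 hv1
    have hv2 : c = 0 → deriv (fun w => g w - p.eval w) a = 0 := by
      intro hc
      have hza : z 0 = (a : ℂ) := by rw [hac, hc]; simp
      have hzb : z 1 = (a : ℂ) := by rw [hpair, hza]; simp
      have h5 := hp.2 (a : ℂ) 1 (by rw [mult_two, hza, hzb]; simp)
      rwa [iteratedDeriv_one] at h5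
    exact bounds hdd hb (abs_le.2 hx) hnorm hv0 hv1 hv2
  -- the extremal function
  have hext : InE 2 (fun w => w ^ 2 / 2) := by
    refine ⟨by fun_prop, fun w _ => ?_⟩
    have e1 : deriv (fun w : ℂ => w ^ 2 / 2) = fun w => w := by
      funext w
      have := (hasDerivAt_pow 2 w).div_const 2
      have h6 := this.deriv
      rw [h6]; push_cast; ring
    rw [iteratedDeriv_succ, iteratedDeriv_one, e1]
    simp
  set P : ℂ[X] := C ((z 0 + z 1) / 2) * X - C (z 0 * z 1 / 2) with hP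
  have hPe : (fun w : ℂ => w ^ 2 / 2 - P.eval w) = fun w => (w - z 0) * (w - z 1) / 2 := by
    funext w
    simp [hP]
    ring
  have hPd : ∀ w : ℂ, deriv (fun w : ℂ => (w - z 0) * (w - z 1) / 2) w
      = ((w - z 1) + (w - z 0)) / 2 := by
    intro w
    have := ((((hasDerivAt_id' w).sub_const (z 0)).fun_mul
      ((hasDerivAt_id' w).sub_const (z 1))).div_const 2).deriv
    rw [this]
    ring
  have hPi : IsInterpolant (fun w => w ^ 2 / 2) z P := by
    refine ⟨?_, ?_⟩
    · have : P.degree ≤ 1 := by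
        rw [hP]
        refine (Polynomial.degree_sub_le _ _).trans (max_le ?_ ?_)
        · exact Polynomial.degree_C_mul_X_le _
        · exact Polynomial.degree_C_le.trans (by norm_num)
      exact lt_of_le_of_lt this (by norm_num)
    · intro w i hi
      rw [hPe]
      rw [mult_two] at hi
      have hi2 : i < 2 := by
        split_ifs at hi <;> omega
      interval_cases i
      · rw [iteratedDeriv_zero]
        by_cases h0 : z 0 = w
        · simp [h0]
        · by_cases h1 : z 1 = w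
          · simp [h1]
          · simp [h0, h1] at hi
      · rw [iteratedDeriv_one, hPd]
        by_cases h0 : z 0 = w
        · by_cases h1 : z 1 = w
          · simp [h0, h1]
          · simp [h0, h1] at hi
        · by_cases h1 : z 1 = w
          · simp [h0, h1] at hi
          · simp [h0, h1] at hi
  interval_cases k
  · -- k = 0
    have hval : ∀ x : ℝ, ‖(derivative^[0] (nodePoly z)).eval (x : ℂ)‖ / ((2 : ℕ).factorial : ℝ)
        = ((x - a) ^ 2 + c ^ 2) / 2 := by
      intro x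
      rw [nodePoly_two, hpair, hac]
      simp only [Function.iterate_zero, id, eval_mul, eval_sub, eval_X, eval_C]
      rw [eval0]
      norm_num [Nat.factorial]
    have hle : ∀ x : ℝ, x ∈ Icc (-1 : ℝ) 1 →
        ((x - a) ^ 2 + c ^ 2) / 2 ≤ ((x0 - a) ^ 2 + c ^ 2) / 2 := by
      intro x hx
      have h5 : |x - a| ≤ |x0 - a| := by
        rw [hx0a]
        exact (abs_sub _ _).trans (by linarith [abs_le.2 hx])
      have h6 := sq_le_sq' (by linarith [abs_nonneg (x - a), abs_nonneg (x0 - a)]) h5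
      rw [sq_abs, sq_abs] at h6
      linarith
    refine ⟨((x0 - a) ^ 2 + c ^ 2) / 2, ⟨⟨x0, hx0, (hval x0).symm⟩, ?_⟩, ?_, ?_⟩
    · rintro r ⟨x, hx, rfl⟩
      rw [hval]
      exact hle x hx
    · rintro r ⟨g, hg, p, hp, x, hx, rfl⟩
      rw [iteratedDeriv_zero]
      exact (hupper g hg p hp x hx).1.trans (hle x hx)
    · intro y hy
      apply hy
      refine ⟨_, hext, P, hPi, x0, hx0, ?_⟩
      rw [iteratedDeriv_zero, ← hval x0, nodePoly_two]
      have := congrFun hPe (x0 : ℂ)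
      rw [this, norm_div]
      simp
  · -- k = 1
    have hval : ∀ x : ℝ, ‖(derivative^[1] (nodePoly z)).eval (x : ℂ)‖ / ((2 : ℕ).factorial : ℝ)
        = |x - a| := by
      intro x
      rw [nodePoly_two, hpair, hac]
      simp only [Function.iterate_one, derivative_mul, derivative_sub, derivative_X,
        derivative_C, sub_zero, one_mul, mul_one, eval_add, eval_sub, eval_X, eval_C]
      rw [eval1]
      norm_num [Nat.factorial]
    refine ⟨1 + |a|, ⟨⟨x0, hx0, ?_⟩, ?_⟩, ?_, ?_⟩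
    · rw [hval, hx0a]
    · rintro r ⟨x, hx, rfl⟩
      rw [hval]
      exact (abs_sub _ _).trans (by linarith [abs_le.2 hx])
    · rintro r ⟨g, hg, p, hp, x, hx, rfl⟩
      rw [iteratedDeriv_one]
      exact (hupper g hg p hp x hx).2
    · intro y hy
      apply hy
      refine ⟨_, hext, P, hPi, x0, hx0, ?_⟩
      rw [iteratedDeriv_one, hPe, hPd, ← hx0a, ← hval x0, nodePoly_two, norm_div]
      simp only [Function.iterate_one, derivative_mul, derivative_sub, derivative_X,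
        derivative_C, sub_zero, one_mul, mul_one, eval_add, eval_sub, eval_X, eval_C]
      simp

end Pool.Agent.Results.MP_832e94_an.NTwo
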