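import Mathlib
import Pool.Agent.SelfConjInterp.NTwoH

open Polynomial Set

namespace Pool.Agent.SelfConjInterp

open Pool.Agent.Results.MP_832e94_an.NTwo

/-- region data: convex, conjugation-symmetric, inside the disc, and the vertical segment bound
is dominated by the affine function `1 - κ X` -/
structure Good (x κ : ℝ) (K : Set ℂ) : Prop where
  conv : Convex ℝ K
  disc : ∀ w ∈ K, ‖w‖ ≤ 1
  sym : ∀ w ∈ K, (starRingEnd ℂ) w ∈ K
  near : ∀ X r : ℝ, 0 < r → (X : ℂ) + (r : ℂ) * Complex.I ∈ K → |x - X| ≤ 1 - κ * X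
  far : ∀ X r : ℝ, 0 < r → (X : ℂ) + (r : ℂ) * Complex.I ∈ K → |x - X| ≤ r →
    (x - X) ^ 2 + r ^ 2 ≤ 2 * r * (1 - κ * X)

/-- the vertical increment property -/
def VInc (K : Set ℂ) (f : ℂ → ℂ) (N : ℕ) (C : ℂ) (α κ : ℝ) : Prop :=
  ∀ X r : ℝ, 0 < r → (X : ℂ) + (r : ℂ) * Complex.I ∈ K →
    ‖C * (2 * r * Complex.I) - (iteratedDeriv N f ((X : ℂ) + (r : ℂ) * Complex.I)
      - iteratedDeriv N f ((X : ℂ) + ((-r : ℝ) : ℂ) * Complex.I))‖ ≤ 2 * r * (α - κ * X)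

theorem base {x κ : ℝ} {K : Set ℂ} (hK : Good x κ K) (hx : |x| ≤ 1) {f : ℂ → ℂ} {N : ℕ}
    (hd : Differentiable ℂ (iteratedDeriv N f))
    (hb : ∀ w : ℂ, ‖w‖ ≤ 1 → ‖iteratedDeriv (N + 2) f w‖ ≤ 1) :
    VInc K f N (iteratedDeriv (N + 1) f x) 1 κ := by
  intro X r hr hmem
  have hxn : ‖(x : ℂ)‖ ≤ 1 := by rw [Complex.norm_real]; exact hx
  have hb' : ∀ w : ℂ, ‖w‖ ≤ 1 → ‖deriv (deriv (iteratedDeriv N f)) w‖ ≤ 1 := by
    intro w hw
    have := hb w hw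
    rwa [iteratedDeriv_succ, iteratedDeriv_succ] at this
  obtain ⟨F, hF, hF0, hFv, -, hFb⟩ := taylor hd hb' hxn
  have hdisc : X ^ 2 + r ^ 2 ≤ 1 := by
    have h1 := hK.disc _ hmem
    have h2 : ‖(X : ℂ) + (r : ℂ) * Complex.I‖ ^ 2 ≤ 1 := pow_le_one₀ (norm_nonneg _) h1
    rwa [← Complex.normSq_eq_norm_sq, Complex.normSq_add_mul_I] at h2
  have hdiff : iteratedDeriv (N + 1) f x * (2 * r * Complex.I)
      - (iteratedDeriv N f ((X : ℂ) + (r : ℂ) * Complex.I)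
      - iteratedDeriv N f ((X : ℂ) + ((-r : ℝ) : ℂ) * Complex.I))
      = -(F ((X : ℂ) + (r : ℂ) * Complex.I) - F ((X : ℂ) + ((-r : ℝ) : ℂ) * Complex.I)) := by
    rw [hFv, hFv, iteratedDeriv_succ]; push_cast; ring
  rw [hdiff, norm_neg]
  rcases lt_or_ge r (|x - X|) with hlt | hge
  · refine (hyper hF hx hdisc hr hlt hFb).trans ?_
    have := hK.near X r hr hmem
    nlinarith
  · have hz : ∀ c : ℝ, c ^ 2 = r ^ 2 → ‖(X : ℂ) + (c : ℂ) * Complex.I‖ ≤ 1 := by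
      intro c hc
      have : ‖(X : ℂ) + (c : ℂ) * Complex.I‖ ^ 2 ≤ 1 := by
        rw [← Complex.normSq_eq_norm_sq, Complex.normSq_add_mul_I, hc]; exact hdisc
      exact (pow_le_one_iff_of_nonneg (norm_nonneg _) two_ne_zero).1 this
    have hq : ∀ c : ℝ, c ^ 2 = r ^ 2 → ‖F ((X : ℂ) + (c : ℂ) * Complex.I)‖
        ≤ ((x - X) ^ 2 + r ^ 2) / 2 := by
      intro c hc
      have h3 := quad hF hxn (hz c hc) hF0 hFb
      refine h3.trans (le_of_eq ?_)
      have : (X : ℂ) + (c : ℂ) * Complex.I - x = ((X - x : ℝ) : ℂ) + (c : ℂ) * Complex.I := by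
        push_cast; ring
      rw [this, ← Complex.normSq_eq_norm_sq, Complex.normSq_add_mul_I, hc]
      ring
    have h4 := norm_sub_le (F ((X : ℂ) + (r : ℂ) * Complex.I))
      (F ((X : ℂ) + ((-r : ℝ) : ℂ) * Complex.I))
    have h5 := hq r rfl
    have h6 := hq (-r) (by ring)
    have h7 := hK.far X r hr hmem hge
    linarith

/-- vertical segments inside a symmetric convex set -/
theorem vseg {K : Set ℂ} (hc : Convex ℝ K) (hs : ∀ w ∈ K, (starRingEnd ℂ) w ∈ K) {X V v : ℝ}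
    (h : (X : ℂ) + (V : ℂ) * Complex.I ∈ K) (hv : |v| ≤ V) :
    (X : ℂ) + (v : ℂ) * Complex.I ∈ K := by
  rcases (abs_nonneg v |>.trans hv).eq_or_lt with h0 | h0
  · have : v = V := by
      rw [← h0] at hv ⊢
      exact abs_nonpos_iff.1 hv
    rw [this]; exact h
  · have h1 := hs _ h
    have e1 : (starRingEnd ℂ) ((X : ℂ) + (V : ℂ) * Complex.I)
        = (X : ℂ) - (V : ℂ) * Complex.I := by
      simp only [map_add, map_mul, Complex.conj_ofReal, Complex.conj_I]; ring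
    rw [e1] at h1
    have ⟨hv1, hv2⟩ := abs_le.1 hv
    have h2 := hc h h1 (show 0 ≤ (1 + v / V) / 2 by
      have : -1 ≤ v / V := by rw [le_div_iff₀ h0]; linarith
      linarith) (show 0 ≤ (1 - v / V) / 2 by
      have : v / V ≤ 1 := by rw [div_le_iff₀ h0]; linarith
      linarith) (by ring)
    convert h2 using 1
    simp only [Complex.real_smul]
    push_cast
    have hV : (V : ℂ) ≠ 0 := by exact_mod_cast h0.ne'
    field_simp
    ring

/-- the increment of the even part -/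
theorem theta {K : Set ℂ} (hc : Convex ℝ K) (hs : ∀ w ∈ K, (starRingEnd ℂ) w ∈ K)
    {f : ℂ → ℂ} {N : ℕ} {C : ℂ} {α κ : ℝ} (hf : Differentiable ℂ (iteratedDeriv N f))
    (hP : VInc K f (N + 1) C α κ) {X v0 v1 : ℝ} (h0 : 0 ≤ v0) (h01 : v0 ≤ v1)
    (hm : (X : ℂ) + (v1 : ℂ) * Complex.I ∈ K) :
    ‖(iteratedDeriv N f ((X : ℂ) + (v1 : ℂ) * Complex.I)
        + iteratedDeriv N f ((X : ℂ) + ((-v1 : ℝ) : ℂ) * Complex.I))
      - (iteratedDeriv N f ((X : ℂ) + (v0 : ℂ) * Complex.I)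
        + iteratedDeriv N f ((X : ℂ) + ((-v0 : ℝ) : ℂ) * Complex.I))
      + C * ((v1 : ℂ) ^ 2 - (v0 : ℂ) ^ 2)‖ ≤ (v1 ^ 2 - v0 ^ 2) * (α - κ * X) := by
  have hg : ∀ w, HasDerivAt (iteratedDeriv N f) (iteratedDeriv (N + 1) f w) w := by
    intro w
    rw [iteratedDeriv_succ]
    exact (hf w).hasDerivAt
  have hl1 : ∀ v : ℝ, HasDerivAt (fun v : ℝ => (X : ℂ) + (v : ℂ) * Complex.I) Complex.I v := by
    intro v
    have := ((Complex.ofRealCLM.hasDerivAt (x := v)).mul_const Complex.I).const_add (X : ℂ)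
    simpa using this
  have hl2 : ∀ v : ℝ, HasDerivAt (fun v : ℝ => (X : ℂ) + ((-v : ℝ) : ℂ) * Complex.I)
      (-Complex.I) v := by
    intro v
    have := ((Complex.ofRealCLM.hasDerivAt (x := v)).neg.mul_const Complex.I).const_add (X : ℂ)
    simpa using this
  have hsq : ∀ v : ℝ, HasDerivAt (fun v : ℝ => C * ((v : ℂ) ^ 2 - (v0 : ℂ) ^ 2))
      (C * (2 * v)) v := by
    intro v
    have h1 : HasDerivAt (fun v : ℝ => (v : ℂ) ^ 2) (2 * v : ℂ) v := by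
      have := (hasDerivAt_pow 2 v).ofReal_comp
      simpa using this
    exact (h1.sub_const _).const_mul C
  have key := image_norm_le_of_norm_deriv_right_le_deriv_boundary
    (f := fun v : ℝ => (iteratedDeriv N f ((X : ℂ) + (v : ℂ) * Complex.I)
        + iteratedDeriv N f ((X : ℂ) + ((-v : ℝ) : ℂ) * Complex.I))
      - (iteratedDeriv N f ((X : ℂ) + (v0 : ℂ) * Complex.I)
        + iteratedDeriv N f ((X : ℂ) + ((-v0 : ℝ) : ℂ) * Complex.I))
      + C * ((v : ℂ) ^ 2 - (v0 : ℂ) ^ 2))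
    (f' := fun v : ℝ => (iteratedDeriv (N + 1) f ((X : ℂ) + (v : ℂ) * Complex.I) * Complex.I
        + iteratedDeriv (N + 1) f ((X : ℂ) + ((-v : ℝ) : ℂ) * Complex.I) * (-Complex.I))
        + C * (2 * v))
    (a := v0) (b := v1) (B := fun v : ℝ => (v ^ 2 - v0 ^ 2) * (α - κ * X))
    (B' := fun v : ℝ => (2 * v) * (α - κ * X)) ?_ ?_ ?_ ?_ ?_ (x := v1) ⟨h01, le_refl _⟩
  · exact key
  · have hcont := hf.continuous
    apply Continuous.continuousOn
    have c1 : Continuous fun v : ℝ => iteratedDeriv N f ((X : ℂ) + (v : ℂ) * Complex.I) :=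
      hcont.comp (by fun_prop)
    have c2 : Continuous fun v : ℝ => iteratedDeriv N f ((X : ℂ) + ((-v : ℝ) : ℂ) * Complex.I) :=
      hcont.comp (by fun_prop)
    fun_prop
  · intro v _
    have d1 : HasDerivAt (fun v : ℝ => iteratedDeriv N f ((X : ℂ) + (v : ℂ) * Complex.I))
        (iteratedDeriv (N + 1) f ((X : ℂ) + (v : ℂ) * Complex.I) * Complex.I) v :=
      HasDerivAt.comp v (hg _) (hl1 v)
    have d2 : HasDerivAt (fun v : ℝ => iteratedDeriv N f ((X : ℂ) + ((-v : ℝ) : ℂ) * Complex.I))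
        (iteratedDeriv (N + 1) f ((X : ℂ) + ((-v : ℝ) : ℂ) * Complex.I) * (-Complex.I)) v :=
      HasDerivAt.comp v (hg _) (hl2 v)
    exact (((d1.fun_add d2).sub_const _).fun_add (hsq v)).hasDerivWithinAt
  · simp
  · intro v
    have := ((hasDerivAt_pow 2 v).sub_const (v0 ^ 2)).mul_const (α - κ * X)
    simpa using this
  · intro v hv
    have hv0 : 0 ≤ v := h0.trans hv.1
    rcases hv0.eq_or_lt with hz | hz
    · rw [← hz]; simp
    · have hmv : (X : ℂ) + (v : ℂ) * Complex.I ∈ K :=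
        vseg hc hs hm (by rw [abs_of_pos hz]; exact hv.2.le)
      have h2 := hP X v hz hmv
      have e : (iteratedDeriv (N + 1) f ((X : ℂ) + (v : ℂ) * Complex.I) * Complex.I
        + iteratedDeriv (N + 1) f ((X : ℂ) + ((-v : ℝ) : ℂ) * Complex.I) * (-Complex.I))
        + C * (2 * v) = (-Complex.I) * (C * (2 * v * Complex.I)
          - (iteratedDeriv (N + 1) f ((X : ℂ) + (v : ℂ) * Complex.I)
            - iteratedDeriv (N + 1) f ((X : ℂ) + ((-v : ℝ) : ℂ) * Complex.I))) := by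
        have := Complex.I_sq
        linear_combination (2 * C * v) * this
      rw [e, norm_mul, norm_neg, Complex.norm_I, one_mul]
      exact h2

/-- Leibniz rule with a linear factor -/
theorem leib {f k : ℂ → ℂ} {ζ : ℂ} (hk : ContDiff ℂ ⊤ k) (hfk : ∀ w, f w = (w - ζ) * k w)
    (m : ℕ) (w : ℂ) :
    iteratedDeriv (m + 1) f w = (w - ζ) * iteratedDeriv (m + 1) k w
      + (m + 1) * iteratedDeriv m k w := by
  have hd : ∀ (i : ℕ) (w : ℂ), HasDerivAt (iteratedDeriv i k) (iteratedDeriv (i + 1) k w) w := by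
    intro i w
    rw [iteratedDeriv_succ]
    exact ((hk.differentiable_iteratedDeriv i (by exact_mod_cast WithTop.coe_lt_top _)) w).hasDerivAt
  induction m generalizing w with
  | zero =>
    have h0 : f = fun w => (w - ζ) * k w := funext hfk
    rw [iteratedDeriv_one, h0]
    have h1 := hd 0 w
    rw [iteratedDeriv_zero] at h1
    have h2 : HasDerivAt (fun w => (w - ζ) * k w) (1 * k w + (w - ζ) * iteratedDeriv (0 + 1) k w) w :=
      ((hasDerivAt_id' w).sub_const ζ).fun_mul h1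
    rw [h2.deriv, iteratedDeriv_zero]
    push_cast
    ring
  | succ m ih =>
    have h0 : iteratedDeriv (m + 1) f = fun w => (w - ζ) * iteratedDeriv (m + 1) k w
      + (m + 1) * iteratedDeriv m k w := funext ih
    rw [iteratedDeriv_succ, h0]
    have h2 : HasDerivAt (fun w => (w - ζ) * iteratedDeriv (m + 1) k w
      + (m + 1) * iteratedDeriv m k w) ((1 * iteratedDeriv (m + 1) k w
        + (w - ζ) * iteratedDeriv (m + 1 + 1) k w) + (m + 1) * iteratedDeriv (m + 1) k w) w :=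
      (((hasDerivAt_id' w).sub_const ζ).fun_mul (hd (m + 1) w)).fun_add
        ((hd m w).const_mul ((m : ℂ) + 1))
    rw [h2.deriv]
    push_cast
    ring

/-- the radial derivative for a single node -/
theorem radial {f k : ℂ → ℂ} {ζ : ℂ} (hk : ContDiff ℂ ⊤ k) (hfk : ∀ w, f w = (w - ζ) * k w)
    (m : ℕ) (w : ℂ) (t : ℝ) :
    HasDerivAt (fun t : ℝ => (t : ℂ) ^ (m + 1) * iteratedDeriv m k (ζ + t * (w - ζ)))
      ((t : ℂ) ^ m * iteratedDeriv (m + 1) f (ζ + t * (w - ζ))) t := by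
  have hd : ∀ (i : ℕ) (w : ℂ), HasDerivAt (iteratedDeriv i k) (iteratedDeriv (i + 1) k w) w := by
    intro i w
    rw [iteratedDeriv_succ]
    exact ((hk.differentiable_iteratedDeriv i (by exact_mod_cast WithTop.coe_lt_top _)) w).hasDerivAt
  have hl : HasDerivAt (fun t : ℝ => ζ + (t : ℂ) * (w - ζ)) (w - ζ) t := by
    have := ((Complex.ofRealCLM.hasDerivAt (x := t)).mul_const (w - ζ)).const_add ζ
    simpa using this
  have hp : HasDerivAt (fun t : ℝ => (t : ℂ) ^ (m + 1)) (((m : ℂ) + 1) * (t : ℂ) ^ m) t := by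
    have := (hasDerivAt_pow (m + 1) t).ofReal_comp
    simpa using this
  have hc : HasDerivAt (fun t : ℝ => iteratedDeriv m k (ζ + t * (w - ζ)))
      (iteratedDeriv (m + 1) k (ζ + t * (w - ζ)) * (w - ζ)) t :=
    HasDerivAt.comp t (hd m _) hl
  have h := hp.fun_mul hc
  have e : ((m : ℂ) + 1) * (t : ℂ) ^ m * iteratedDeriv m k (ζ + t * (w - ζ))
      + (t : ℂ) ^ (m + 1) * (iteratedDeriv (m + 1) k (ζ + t * (w - ζ)) * (w - ζ))
      = (t : ℂ) ^ m * iteratedDeriv (m + 1) f (ζ + t * (w - ζ)) := by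
    rw [leib hk hfk]
    ring
  rw [e] at h
  exact h

theorem beta_deriv (p : ℕ) (t : ℝ) :
    HasDerivAt (fun t : ℝ => t ^ (p + 1) / ((p : ℝ) + 1) - t ^ (p + 2) / ((p : ℝ) + 2))
      (t ^ p * (1 - t)) t := by
  have h1 : HasDerivAt (fun t : ℝ => t ^ (p + 1) / ((p : ℝ) + 1))
      (((p + 1 : ℕ) : ℝ) * t ^ p / ((p : ℝ) + 1)) t := by
    have := (hasDerivAt_pow (p + 1) t).div_const ((p : ℝ) + 1)
    simpa using this
  have h2 : HasDerivAt (fun t : ℝ => t ^ (p + 2) / ((p : ℝ) + 2))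
      (((p + 2 : ℕ) : ℝ) * t ^ (p + 1) / ((p : ℝ) + 2)) t := by
    have := (hasDerivAt_pow (p + 2) t).div_const ((p : ℝ) + 2)
    simpa using this
  have h := h1.fun_sub h2
  have e : ((p + 1 : ℕ) : ℝ) * t ^ p / ((p : ℝ) + 1) - ((p + 2 : ℕ) : ℝ) * t ^ (p + 1) / ((p : ℝ) + 2)
      = t ^ p * (1 - t) := by
    push_cast
    field_simp
    ring
  rw [e] at h
  exact h

/-- the majorant and its derivative -/
theorem majorant (μ : ℕ) (r α κ X a t : ℝ) :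
    HasDerivAt (fun t : ℝ => 2 * r * (α * (t ^ (μ + 1 + 1) / (((μ + 1 : ℕ) : ℝ) + 1)
        - t ^ (μ + 1 + 2) / (((μ + 1 : ℕ) : ℝ) + 2))
      - κ * (X * (t ^ (μ + 2 + 1) / (((μ + 2 : ℕ) : ℝ) + 1)
        - t ^ (μ + 2 + 2) / (((μ + 2 : ℕ) : ℝ) + 2))
      + a * ((t ^ (μ + 1 + 1) / (((μ + 1 : ℕ) : ℝ) + 1)
        - t ^ (μ + 1 + 2) / (((μ + 1 : ℕ) : ℝ) + 2))
        - (t ^ (μ + 2 + 1) / (((μ + 2 : ℕ) : ℝ) + 1)
        - t ^ (μ + 2 + 2) / (((μ + 2 : ℕ) : ℝ) + 2))))))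
      (2 * r * (α * (t ^ (μ + 1) * (1 - t)) - κ * (X * (t ^ (μ + 2) * (1 - t))
        + a * (t ^ (μ + 1) * (1 - t) - t ^ (μ + 2) * (1 - t))))) t := by
  have h1 := beta_deriv (μ + 1) t
  have h2 := beta_deriv (μ + 2) t
  exact ((h1.const_mul α).fun_sub (((h2.const_mul X).fun_add
    ((h1.fun_sub h2).const_mul a)).const_mul κ)).const_mul (2 * r)

theorem majorant_one (μ : ℕ) (r α κ X a : ℝ) :
    2 * r * (α * ((1 : ℝ) ^ (μ + 1 + 1) / (((μ + 1 : ℕ) : ℝ) + 1)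
        - (1 : ℝ) ^ (μ + 1 + 2) / (((μ + 1 : ℕ) : ℝ) + 2))
      - κ * (X * ((1 : ℝ) ^ (μ + 2 + 1) / (((μ + 2 : ℕ) : ℝ) + 1)
        - (1 : ℝ) ^ (μ + 2 + 2) / (((μ + 2 : ℕ) : ℝ) + 2))
      + a * (((1 : ℝ) ^ (μ + 1 + 1) / (((μ + 1 : ℕ) : ℝ) + 1)
        - (1 : ℝ) ^ (μ + 1 + 2) / (((μ + 1 : ℕ) : ℝ) + 2))
        - ((1 : ℝ) ^ (μ + 2 + 1) / (((μ + 2 : ℕ) : ℝ) + 1)
        - (1 : ℝ) ^ (μ + 2 + 2) / (((μ + 2 : ℕ) : ℝ) + 2)))))
    = 2 * r * ((α * (1 / ((μ + 2) * (μ + 3))) - κ * a * (2 / ((μ + 2) * (μ + 3) * (μ + 4))))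
      - (κ * (1 / ((μ + 3) * (μ + 4)))) * X) := by
  simp only [one_pow]
  push_cast
  have h1 : (μ : ℝ) + 2 ≠ 0 := by positivity
  have h2 : (μ : ℝ) + 3 ≠ 0 := by positivity
  have h3 : (μ : ℝ) + 4 ≠ 0 := by positivity
  have e1 : (μ : ℝ) + 1 + 1 = μ + 2 := by ring
  have e2 : (μ : ℝ) + 1 + 2 = μ + 3 := by ring
  have e3 : (μ : ℝ) + 2 + 1 = μ + 3 := by ring
  have e4 : (μ : ℝ) + 2 + 2 = μ + 4 := by ring
  rw [e1, e2, e3, e4]
  field_simp
  ring

theorem step_pos {K : Set ℂ} (hc : Convex ℝ K) (hs : ∀ w ∈ K, (starRingEnd ℂ) w ∈ K)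
    {f f₂ : ℂ → ℂ} {a b : ℝ} (hb : 0 < b) (hz : (a : ℂ) + (b : ℂ) * Complex.I ∈ K)
    (h2 : ContDiff ℂ ⊤ f₂) (hf : ∀ w, f w = ((w - a) ^ 2 + (b : ℂ) ^ 2) * f₂ w)
    (μ : ℕ) {C : ℂ} {α κ : ℝ} (hP : VInc K f (μ + 2) C α κ) :
    VInc K f₂ μ (C * ((1 / ((μ + 2) * (μ + 3)) : ℝ) : ℂ))
      (α * (1 / ((μ + 2) * (μ + 3))) - κ * a * (2 / ((μ + 2) * (μ + 3) * (μ + 4))))
      (κ * (1 / ((μ + 3) * (μ + 4)))) := by
  intro X r hr hmem
  have hbC : (b : ℂ) ≠ 0 := by exact_mod_cast hb.ne'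
  obtain ⟨z, hzdef⟩ : ∃ z : ℂ, z = (a : ℂ) + (b : ℂ) * Complex.I := ⟨_, rfl⟩
  obtain ⟨zb, hzbdef⟩ : ∃ zb : ℂ, zb = (a : ℂ) + ((-b : ℝ) : ℂ) * Complex.I := ⟨_, rfl⟩
  obtain ⟨wp, hwp⟩ : ∃ wp : ℂ, wp = (X : ℂ) + (r : ℂ) * Complex.I := ⟨_, rfl⟩
  obtain ⟨wm, hwm⟩ : ∃ wm : ℂ, wm = (X : ℂ) + ((-r : ℝ) : ℂ) * Complex.I := ⟨_, rfl⟩
  obtain ⟨k1, hk1def⟩ : ∃ k1 : ℂ → ℂ, k1 = fun w => (w - zb) * f₂ w := ⟨_, rfl⟩
  obtain ⟨k2, hk2def⟩ : ∃ k2 : ℂ → ℂ, k2 = fun w => (w - z) * f₂ w := ⟨_, rfl⟩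
  have hk1 : ContDiff ℂ ⊤ k1 := by rw [hk1def]; exact (contDiff_id.sub contDiff_const).mul h2
  have hk2 : ContDiff ℂ ⊤ k2 := by rw [hk2def]; exact (contDiff_id.sub contDiff_const).mul h2
  have hfs : ContDiff ℂ ⊤ f := by
    have : f = fun w => ((w - a) ^ 2 + (b : ℂ) ^ 2) * f₂ w := funext hf
    rw [this]
    exact (((contDiff_id.sub contDiff_const).pow 2).add contDiff_const).mul h2
  have hf1 : ∀ w, f w = (w - z) * k1 w := by
    intro w
    rw [hf, hk1def, hzdef, hzbdef]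
    push_cast
    linear_combination ((b : ℂ) ^ 2 * f₂ w) * Complex.I_sq
  have hf2 : ∀ w, f w = (w - zb) * k2 w := by
    intro w
    rw [hf, hk2def, hzdef, hzbdef]
    push_cast
    linear_combination ((b : ℂ) ^ 2 * f₂ w) * Complex.I_sq
  have hdiffk : ∀ w, iteratedDeriv μ k1 w - iteratedDeriv μ k2 w
      = (2 * b * Complex.I) * iteratedDeriv μ f₂ w := by
    intro w
    have e1 : k1 = k2 + fun w => (2 * b * Complex.I) * f₂ w := by
      funext w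
      rw [hk1def, hk2def, Pi.add_apply, hzdef, hzbdef]
      push_cast
      ring
    have c2 : ContDiffAt ℂ μ k2 w := (hk2.of_le le_top).contDiffAt
    have c3 : ContDiffAt ℂ μ f₂ w := (h2.of_le le_top).contDiffAt
    rw [e1, iteratedDeriv_add c2 (contDiffAt_const.mul c3), iteratedDeriv_const_mul _ c3]
    ring
  have hfd : Differentiable ℂ (iteratedDeriv (μ + 1) f) :=
    hfs.differentiable_iteratedDeriv _ (by exact_mod_cast WithTop.coe_lt_top _)
  have hR : ∀ (w : ℂ) (t : ℝ), HasDerivAt (fun t : ℝ =>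
      (t : ℂ) ^ (μ + 1) * iteratedDeriv μ k1 (z + t * (w - z))
      - (t : ℂ) ^ (μ + 1) * iteratedDeriv μ k2 (zb + t * (w - zb)))
      ((t : ℂ) ^ μ * iteratedDeriv (μ + 1) f (z + t * (w - z))
      - (t : ℂ) ^ μ * iteratedDeriv (μ + 1) f (zb + t * (w - zb))) t := by
    intro w t
    exact (radial hk1 hf1 μ w t).fun_sub (radial hk2 hf2 μ w t)
  have hβ : ∀ t : ℝ, HasDerivAt (fun t : ℝ => (((t ^ (μ + 1 + 1) / (((μ + 1 : ℕ) : ℝ) + 1)
        - t ^ (μ + 1 + 2) / (((μ + 1 : ℕ) : ℝ) + 2)) : ℝ) : ℂ))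
      (((t ^ (μ + 1) * (1 - t) : ℝ)) : ℂ) t := fun t => (beta_deriv (μ + 1) t).ofReal_comp
  have key := image_norm_le_of_norm_deriv_right_le_deriv_boundary
    (f := fun t : ℝ => (((t : ℂ) ^ (μ + 1) * iteratedDeriv μ k1 (z + t * (wp - z))
      - (t : ℂ) ^ (μ + 1) * iteratedDeriv μ k2 (zb + t * (wp - zb)))
      - ((t : ℂ) ^ (μ + 1) * iteratedDeriv μ k1 (z + t * (wm - z))
      - (t : ℂ) ^ (μ + 1) * iteratedDeriv μ k2 (zb + t * (wm - zb)))) / (2 * b * Complex.I)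
      - C * (2 * r * Complex.I) * (((t ^ (μ + 1 + 1) / (((μ + 1 : ℕ) : ℝ) + 1)
        - t ^ (μ + 1 + 2) / (((μ + 1 : ℕ) : ℝ) + 2)) : ℝ) : ℂ))
    (f' := fun t : ℝ => (((t : ℂ) ^ μ * iteratedDeriv (μ + 1) f (z + t * (wp - z))
      - (t : ℂ) ^ μ * iteratedDeriv (μ + 1) f (zb + t * (wp - zb)))
      - ((t : ℂ) ^ μ * iteratedDeriv (μ + 1) f (z + t * (wm - z))
      - (t : ℂ) ^ μ * iteratedDeriv (μ + 1) f (zb + t * (wm - zb)))) / (2 * b * Complex.I)
      - C * (2 * r * Complex.I) * (((t ^ (μ + 1) * (1 - t) : ℝ)) : ℂ))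
    (a := 0) (b := 1)
    (B := fun t : ℝ => 2 * r * (α * (t ^ (μ + 1 + 1) / (((μ + 1 : ℕ) : ℝ) + 1)
        - t ^ (μ + 1 + 2) / (((μ + 1 : ℕ) : ℝ) + 2))
      - κ * (X * (t ^ (μ + 2 + 1) / (((μ + 2 : ℕ) : ℝ) + 1)
        - t ^ (μ + 2 + 2) / (((μ + 2 : ℕ) : ℝ) + 2))
      + a * ((t ^ (μ + 1 + 1) / (((μ + 1 : ℕ) : ℝ) + 1)
        - t ^ (μ + 1 + 2) / (((μ + 1 : ℕ) : ℝ) + 2))
        - (t ^ (μ + 2 + 1) / (((μ + 2 : ℕ) : ℝ) + 1)
        - t ^ (μ + 2 + 2) / (((μ + 2 : ℕ) : ℝ) + 2))))))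
    (B' := fun t : ℝ => (2 * r * (α * (t ^ (μ + 1) * (1 - t)) - κ * (X * (t ^ (μ + 2) * (1 - t))
        + a * (t ^ (μ + 1) * (1 - t) - t ^ (μ + 2) * (1 - t))))))
    ?_ ?_ ?_ ?_ ?_ (x := 1) ⟨zero_le_one, le_refl _⟩
  · have hval := majorant_one μ r α κ X a
    have e1 := hdiffk wp
    have e2 := hdiffk wm
    simp only [Complex.ofReal_one, one_pow, one_mul, add_sub_cancel] at key
    simp only [one_pow] at hval
    rw [hval, e1, e2] at key
    have e3 : ((2 * (b : ℂ) * Complex.I) * iteratedDeriv μ f₂ wp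
        - (2 * (b : ℂ) * Complex.I) * iteratedDeriv μ f₂ wm) / (2 * b * Complex.I)
        = iteratedDeriv μ f₂ wp - iteratedDeriv μ f₂ wm := by
      field_simp
    have e4 : ((1 / (((μ + 1 : ℕ) : ℝ) + 1) - 1 / (((μ + 1 : ℕ) : ℝ) + 2) : ℝ) : ℂ)
        = ((1 / ((μ + 2) * (μ + 3)) : ℝ) : ℂ) := by
      congr 1
      push_cast
      have h1 : (μ : ℝ) + 2 ≠ 0 := by positivity
      have h2 : (μ : ℝ) + 3 ≠ 0 := by positivity
      have e1 : (μ : ℝ) + 1 + 1 = μ + 2 := by ring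
      have e2 : (μ : ℝ) + 1 + 2 = μ + 3 := by ring
      rw [e1, e2]
      field_simp
      ring
    rw [e3, e4] at key
    rw [← hwp, ← hwm, ← norm_neg]
    refine le_trans (le_of_eq ?_) key
    congr 1
    ring
  · intro t _
    exact ((((hR wp t).fun_sub (hR wm t)).div_const _).fun_sub
      ((hβ t).const_mul _)).continuousAt.continuousWithinAt
  · intro t _
    exact ((((hR wp t).fun_sub (hR wm t)).div_const _).fun_sub
      ((hβ t).const_mul _)).hasDerivWithinAt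
  · simp
  · intro t
    exact majorant μ r α κ X a t
  · intro t ht
    have ht0 : 0 ≤ t := ht.1
    have ht1 : t < 1 := ht.2
    obtain ⟨G, hG⟩ : ∃ G : ℝ → ℂ, G = fun v : ℝ => iteratedDeriv (μ + 1) f
      (((t * X + (1 - t) * a : ℝ) : ℂ) + (v : ℂ) * Complex.I) := ⟨_, rfl⟩
    have p1 : iteratedDeriv (μ + 1) f (z + t * (wp - z)) = G (t * r + (1 - t) * b) := by
      rw [hG, hzdef, hwp]; congr 1; push_cast; ring
    have p2 : iteratedDeriv (μ + 1) f (zb + t * (wp - zb)) = G (t * r - (1 - t) * b) := by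
      rw [hG, hzbdef, hwp]; congr 1; push_cast; ring
    have p3 : iteratedDeriv (μ + 1) f (z + t * (wm - z)) = G (-(t * r - (1 - t) * b)) := by
      rw [hG, hzdef, hwm]; congr 1; push_cast; ring
    have p4 : iteratedDeriv (μ + 1) f (zb + t * (wm - zb)) = G (-(t * r + (1 - t) * b)) := by
      rw [hG, hzbdef, hwm]; congr 1; push_cast; ring
    have hmem' : ((t * X + (1 - t) * a : ℝ) : ℂ) + ((t * r + (1 - t) * b : ℝ) : ℂ) * Complex.I
        ∈ K := by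
      have := hc hmem hz ht0 (show 0 ≤ 1 - t by linarith) (by ring)
      convert this using 1
      simp only [Complex.real_smul]
      push_cast
      ring
    have htr : 0 ≤ t * r := by positivity
    have hsb : 0 ≤ (1 - t) * b := mul_nonneg (by linarith) hb.le
    have hth := theta hc hs hfd hP (X := t * X + (1 - t) * a)
      (v0 := |t * r - (1 - t) * b|) (v1 := t * r + (1 - t) * b) (abs_nonneg _)
      (by rw [abs_le]; constructor <;> linarith) hmem'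
    have hsym : iteratedDeriv (μ + 1) f (((t * X + (1 - t) * a : ℝ) : ℂ)
          + ((|t * r - (1 - t) * b| : ℝ) : ℂ) * Complex.I)
        + iteratedDeriv (μ + 1) f (((t * X + (1 - t) * a : ℝ) : ℂ)
          + ((-|t * r - (1 - t) * b| : ℝ) : ℂ) * Complex.I)
        = G (t * r - (1 - t) * b) + G (-(t * r - (1 - t) * b)) := by
      rcases abs_cases (t * r - (1 - t) * b) with ⟨h, _⟩ | ⟨h, _⟩
      · rw [h, hG]
      · rw [h, hG, neg_neg, add_comm]
    rw [hsym] at hth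
    have habs2 : ((|t * r - (1 - t) * b| : ℝ) : ℂ) ^ 2 = ((t * r - (1 - t) * b : ℝ) : ℂ) ^ 2 := by
      rw [← Complex.ofReal_pow, sq_abs, Complex.ofReal_pow]
    rw [habs2, sq_abs] at hth
    have hG1 : iteratedDeriv (μ + 1) f (((t * X + (1 - t) * a : ℝ) : ℂ)
          + ((t * r + (1 - t) * b : ℝ) : ℂ) * Complex.I) = G (t * r + (1 - t) * b) := by rw [hG]
    have hG2 : iteratedDeriv (μ + 1) f (((t * X + (1 - t) * a : ℝ) : ℂ)
          + ((-(t * r + (1 - t) * b) : ℝ) : ℂ) * Complex.I) = G (-(t * r + (1 - t) * b)) := by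
      rw [hG]
    rw [hG1, hG2] at hth
    rw [p1, p2, p3, p4]
    have e : (((t : ℂ) ^ μ * G (t * r + (1 - t) * b) - (t : ℂ) ^ μ * G (t * r - (1 - t) * b))
      - ((t : ℂ) ^ μ * G (-(t * r - (1 - t) * b)) - (t : ℂ) ^ μ * G (-(t * r + (1 - t) * b))))
        / (2 * b * Complex.I) - C * (2 * r * Complex.I) * (((t ^ (μ + 1) * (1 - t) : ℝ)) : ℂ)
      = ((t : ℂ) ^ μ / (2 * b * Complex.I)) * ((G (t * r + (1 - t) * b)
        + G (-(t * r + (1 - t) * b))) - (G (t * r - (1 - t) * b) + G (-(t * r - (1 - t) * b)))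
        + C * (((t * r + (1 - t) * b : ℝ) : ℂ) ^ 2 - ((t * r - (1 - t) * b : ℝ) : ℂ) ^ 2)) := by
      have hI := Complex.I_ne_zero
      push_cast
      field_simp
      have := Complex.I_sq
      ring_nf
      simp only [Complex.I_sq]
      ring
    rw [e, norm_mul]
    have hn : ‖(t : ℂ) ^ μ / (2 * b * Complex.I)‖ = t ^ μ / (2 * b) := by
      rw [norm_div, norm_pow, norm_mul, norm_mul, Complex.norm_real, Complex.norm_real,
        Complex.norm_I, Real.norm_of_nonneg ht0, Real.norm_of_nonneg hb.le]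
      simp
    rw [hn]
    refine (mul_le_mul_of_nonneg_left hth (by positivity)).trans (le_of_eq ?_)
    field_simp
    ring

theorem step_zero {K : Set ℂ} (hc : Convex ℝ K)
    {f f₂ : ℂ → ℂ} {a : ℝ} (hz : (a : ℂ) ∈ K)
    (h2 : ContDiff ℂ ⊤ f₂) (hf : ∀ w, f w = (w - a) ^ 2 * f₂ w)
    (μ : ℕ) {C : ℂ} {α κ : ℝ} (hP : VInc K f (μ + 2) C α κ) :
    VInc K f₂ μ (C * ((1 / ((μ + 2) * (μ + 3)) : ℝ) : ℂ))
      (α * (1 / ((μ + 2) * (μ + 3))) - κ * a * (2 / ((μ + 2) * (μ + 3) * (μ + 4))))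
      (κ * (1 / ((μ + 3) * (μ + 4)))) := by
  intro X r hr hmem
  obtain ⟨wp, hwp⟩ : ∃ wp : ℂ, wp = (X : ℂ) + (r : ℂ) * Complex.I := ⟨_, rfl⟩
  obtain ⟨wm, hwm⟩ : ∃ wm : ℂ, wm = (X : ℂ) + ((-r : ℝ) : ℂ) * Complex.I := ⟨_, rfl⟩
  obtain ⟨k, hkdef⟩ : ∃ k : ℂ → ℂ, k = fun w => (w - a) * f₂ w := ⟨_, rfl⟩
  have hk : ContDiff ℂ ⊤ k := by rw [hkdef]; exact (contDiff_id.sub contDiff_const).mul h2
  have hf1 : ∀ w, f w = (w - a) * k w := by
    intro w
    rw [hf, hkdef]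
    ring
  have hk1 : ∀ w, k w = (w - a) * f₂ w := by
    intro w
    rw [hkdef]
  have hdk : ∀ (i : ℕ) (w : ℂ), HasDerivAt (iteratedDeriv i k) (iteratedDeriv (i + 1) k w) w := by
    intro i w
    rw [iteratedDeriv_succ]
    exact ((hk.differentiable_iteratedDeriv i (by exact_mod_cast WithTop.coe_lt_top _)) w).hasDerivAt
  have hR : ∀ (w : ℂ) (t : ℝ), HasDerivAt (fun t : ℝ =>
      ((t : ℂ) ^ (μ + 1) * (1 - t)) * iteratedDeriv (μ + 1) k (a + t * (w - a))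
      + (t : ℂ) ^ (μ + 1) * iteratedDeriv μ f₂ (a + t * (w - a)))
      ((t : ℂ) ^ μ * (1 - t) * iteratedDeriv (μ + 2) f (a + t * (w - a))) t := by
    intro w t
    have hl : HasDerivAt (fun t : ℝ => (a : ℂ) + (t : ℂ) * (w - a)) (w - a) t := by
      have := ((Complex.ofRealCLM.hasDerivAt (x := t)).mul_const (w - a)).const_add (a : ℂ)
      simpa using this
    have hp : HasDerivAt (fun t : ℝ => (t : ℂ) ^ (μ + 1)) (((μ : ℂ) + 1) * (t : ℂ) ^ μ) t := by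
      have := (hasDerivAt_pow (μ + 1) t).ofReal_comp
      simpa using this
    have h1t : HasDerivAt (fun t : ℝ => (1 : ℂ) - (t : ℂ)) (-1) t := by
      have := (Complex.ofRealCLM.hasDerivAt (x := t)).const_sub (1 : ℂ)
      simpa using this
    have hc1 : HasDerivAt (fun t : ℝ => iteratedDeriv (μ + 1) k (a + t * (w - a)))
        (iteratedDeriv (μ + 2) k (a + t * (w - a)) * (w - a)) t :=
      HasDerivAt.comp t (hdk (μ + 1) _) hl
    have h := ((hp.fun_mul h1t).fun_mul hc1).fun_add (radial h2 hk1 μ w t)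
    have e : (((μ : ℂ) + 1) * (t : ℂ) ^ μ * (1 - (t : ℂ)) + (t : ℂ) ^ (μ + 1) * (-1))
          * iteratedDeriv (μ + 1) k (a + t * (w - a))
        + (t : ℂ) ^ (μ + 1) * (1 - (t : ℂ))
          * (iteratedDeriv (μ + 2) k (a + t * (w - a)) * (w - a))
        + (t : ℂ) ^ μ * iteratedDeriv (μ + 1) k (a + t * (w - a))
        = (t : ℂ) ^ μ * (1 - t) * iteratedDeriv (μ + 2) f (a + t * (w - a)) := by
      rw [leib hk hf1 (μ + 1)]
      push_cast
      ring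
    rw [e] at h
    exact h
  have hβ : ∀ t : ℝ, HasDerivAt (fun t : ℝ => (((t ^ (μ + 1 + 1) / (((μ + 1 : ℕ) : ℝ) + 1)
        - t ^ (μ + 1 + 2) / (((μ + 1 : ℕ) : ℝ) + 2)) : ℝ) : ℂ))
      (((t ^ (μ + 1) * (1 - t) : ℝ)) : ℂ) t := fun t => (beta_deriv (μ + 1) t).ofReal_comp
  have key := image_norm_le_of_norm_deriv_right_le_deriv_boundary
    (f := fun t : ℝ => ((((t : ℂ) ^ (μ + 1) * (1 - t)) * iteratedDeriv (μ + 1) k (a + t * (wp - a))
      + (t : ℂ) ^ (μ + 1) * iteratedDeriv μ f₂ (a + t * (wp - a)))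
      - (((t : ℂ) ^ (μ + 1) * (1 - t)) * iteratedDeriv (μ + 1) k (a + t * (wm - a))
      + (t : ℂ) ^ (μ + 1) * iteratedDeriv μ f₂ (a + t * (wm - a))))
      - C * (2 * r * Complex.I) * (((t ^ (μ + 1 + 1) / (((μ + 1 : ℕ) : ℝ) + 1)
        - t ^ (μ + 1 + 2) / (((μ + 1 : ℕ) : ℝ) + 2)) : ℝ) : ℂ))
    (f' := fun t : ℝ => (((t : ℂ) ^ μ * (1 - t) * iteratedDeriv (μ + 2) f (a + t * (wp - a)))
      - ((t : ℂ) ^ μ * (1 - t) * iteratedDeriv (μ + 2) f (a + t * (wm - a))))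
      - C * (2 * r * Complex.I) * (((t ^ (μ + 1) * (1 - t) : ℝ)) : ℂ))
    (a := 0) (b := 1)
    (B := fun t : ℝ => 2 * r * (α * (t ^ (μ + 1 + 1) / (((μ + 1 : ℕ) : ℝ) + 1)
        - t ^ (μ + 1 + 2) / (((μ + 1 : ℕ) : ℝ) + 2))
      - κ * (X * (t ^ (μ + 2 + 1) / (((μ + 2 : ℕ) : ℝ) + 1)
        - t ^ (μ + 2 + 2) / (((μ + 2 : ℕ) : ℝ) + 2))
      + a * ((t ^ (μ + 1 + 1) / (((μ + 1 : ℕ) : ℝ) + 1)
        - t ^ (μ + 1 + 2) / (((μ + 1 : ℕ) : ℝ) + 2))
        - (t ^ (μ + 2 + 1) / (((μ + 2 : ℕ) : ℝ) + 1)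
        - t ^ (μ + 2 + 2) / (((μ + 2 : ℕ) : ℝ) + 2))))))
    (B' := fun t : ℝ => (2 * r * (α * (t ^ (μ + 1) * (1 - t)) - κ * (X * (t ^ (μ + 2) * (1 - t))
        + a * (t ^ (μ + 1) * (1 - t) - t ^ (μ + 2) * (1 - t))))))
    ?_ ?_ ?_ ?_ ?_ (x := 1) ⟨zero_le_one, le_refl _⟩
  · have hval := majorant_one μ r α κ X a
    simp only [Complex.ofReal_one, one_pow, one_mul, add_sub_cancel, sub_self, zero_mul,
      zero_add] at key
    simp only [one_pow] at hval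
    rw [hval] at key
    have e4 : ((1 / (((μ + 1 : ℕ) : ℝ) + 1) - 1 / (((μ + 1 : ℕ) : ℝ) + 2) : ℝ) : ℂ)
        = ((1 / ((μ + 2) * (μ + 3)) : ℝ) : ℂ) := by
      congr 1
      push_cast
      have h1 : (μ : ℝ) + 2 ≠ 0 := by positivity
      have h2 : (μ : ℝ) + 3 ≠ 0 := by positivity
      have e1 : (μ : ℝ) + 1 + 1 = μ + 2 := by ring
      have e2 : (μ : ℝ) + 1 + 2 = μ + 3 := by ring
      rw [e1, e2]
      field_simp
      ring
    rw [e4] at key
    rw [← hwp, ← hwm, ← norm_neg]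
    refine le_trans (le_of_eq ?_) key
    congr 1
    ring
  · intro t _
    exact (((hR wp t).fun_sub (hR wm t)).fun_sub
      ((hβ t).const_mul _)).continuousAt.continuousWithinAt
  · intro t _
    exact (((hR wp t).fun_sub (hR wm t)).fun_sub
      ((hβ t).const_mul _)).hasDerivWithinAt
  · simp
  · intro t
    exact majorant μ r α κ X a t
  · intro t ht
    have ht0 : 0 ≤ t := ht.1
    have ht1 : t < 1 := ht.2
    have p1 : (a : ℂ) + t * (wp - a) = ((t * X + (1 - t) * a : ℝ) : ℂ)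
        + ((t * r : ℝ) : ℂ) * Complex.I := by
      rw [hwp]; push_cast; ring
    have p2 : (a : ℂ) + t * (wm - a) = ((t * X + (1 - t) * a : ℝ) : ℂ)
        + ((-(t * r) : ℝ) : ℂ) * Complex.I := by
      rw [hwm]; push_cast; ring
    rw [p1, p2]
    rcases ht0.eq_or_lt with h0 | h0
    · rw [← h0]; simp
    · have hmem' : ((t * X + (1 - t) * a : ℝ) : ℂ) + ((t * r : ℝ) : ℂ) * Complex.I ∈ K := by
        have := hc hmem hz ht0 (show 0 ≤ 1 - t by linarith) (by ring)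
        convert this using 1
        simp only [Complex.real_smul]
        push_cast
        ring
      have hth := hP (t * X + (1 - t) * a) (t * r) (by positivity) hmem'
      obtain ⟨A, hA⟩ : ∃ A : ℂ, A = iteratedDeriv (μ + 2) f (((t * X + (1 - t) * a : ℝ) : ℂ)
        + ((t * r : ℝ) : ℂ) * Complex.I) := ⟨_, rfl⟩
      obtain ⟨A', hA'⟩ : ∃ A' : ℂ, A' = iteratedDeriv (μ + 2) f (((t * X + (1 - t) * a : ℝ) : ℂ)
        + ((-(t * r) : ℝ) : ℂ) * Complex.I) := ⟨_, rfl⟩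
      rw [← hA, ← hA'] at hth ⊢
      have e : (((t : ℂ) ^ μ * (1 - t) * A) - ((t : ℂ) ^ μ * (1 - t) * A'))
          - C * (2 * r * Complex.I) * (((t ^ (μ + 1) * (1 - t) : ℝ)) : ℂ)
          = -(((t ^ μ * (1 - t) : ℝ) : ℂ) * (C * (2 * ((t * r : ℝ) : ℂ) * Complex.I) - (A - A'))) := by
        push_cast
        ring
      rw [e, norm_neg, norm_mul, Complex.norm_real, Real.norm_of_nonneg
        (mul_nonneg (by positivity) (by linarith))]
      refine (mul_le_mul_of_nonneg_left hth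
        (mul_nonneg (by positivity) (by linarith))).trans (le_of_eq ?_)
      ring

/-- one pair of nodes is removed -/
theorem step {K : Set ℂ} (hc : Convex ℝ K) (hs : ∀ w ∈ K, (starRingEnd ℂ) w ∈ K)
    {f f₂ : ℂ → ℂ} {z : ℂ} (hz : z ∈ K)
    (h2 : ContDiff ℂ ⊤ f₂) (hf : ∀ w, f w = ((w - z.re) ^ 2 + (z.im : ℂ) ^ 2) * f₂ w)
    (μ : ℕ) {C : ℂ} {α κ : ℝ} (hP : VInc K f (μ + 2) C α κ) :
    VInc K f₂ μ (C * ((1 / ((μ + 2) * (μ + 3)) : ℝ) : ℂ))
      (α * (1 / ((μ + 2) * (μ + 3))) - κ * z.re * (2 / ((μ + 2) * (μ + 3) * (μ + 4))))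
      (κ * (1 / ((μ + 3) * (μ + 4)))) := by
  rcases lt_trichotomy z.im 0 with h | h | h
  · have hz' : (z.re : ℂ) + ((-z.im : ℝ) : ℂ) * Complex.I ∈ K := by
      have h1 := hs z hz
      convert h1 using 1
      apply Complex.ext <;> simp
    exact step_pos hc hs (b := -z.im) (by linarith) hz' h2
      (fun w => by rw [hf]; push_cast; ring) μ hP
  · have hz' : (z.re : ℂ) ∈ K := by
      convert hz using 1
      apply Complex.ext <;> simp [h]
    exact step_zero hc hz' h2 (fun w => by rw [hf, h]; simp) μ hP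
  · have hz' : (z.re : ℂ) + (z.im : ℂ) * Complex.I ∈ K := by
      rw [Complex.re_add_im]; exact hz
    exact step_pos hc hs h hz' h2 hf μ hP

/-- the product of the quadratic factors of a list of nodes with positive multiplicity pairs -/
noncomputable def qprod (L : List ℂ) (w : ℂ) : ℂ :=
  (L.map fun z => (w - z.re) ^ 2 + (z.im : ℂ) ^ 2).prod

theorem qprod_contDiff (L : List ℂ) : ContDiff ℂ ⊤ (qprod L) := by
  induction L with
  | nil =>
    have : qprod [] = fun _ => 1 := by funext w; simp [qprod]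
    rw [this]; exact contDiff_const
  | cons z L ih =>
    have : qprod (z :: L) = fun w => ((w - z.re) ^ 2 + (z.im : ℂ) ^ 2) * qprod L w := by
      funext w; simp [qprod]
    rw [this]
    exact (((contDiff_id.sub contDiff_const).pow 2).add contDiff_const).mul ih

/-- the bottom of the chain: a single pair -/
theorem bottom {K : Set ℂ} (hc : Convex ℝ K) (hs : ∀ w ∈ K, (starRingEnd ℂ) w ∈ K)
    (hi : Complex.I ∈ K) {f u : ℂ → ℂ} {z : ℂ} (hz : z ∈ K) (hu : Continuous u)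
    (hf : ∀ w, f w = ((w - z.re) ^ 2 + (z.im : ℂ) ^ 2) * u w)
    {C : ℂ} {α κ : ℝ} (hP : VInc K f 0 C α κ) : ‖C‖ ≤ α - κ * z.re := by
  by_cases h : z.im = 0
  · -- a real double node: approach it from inside
    have hev : ∀ s ∈ Ioo (0 : ℝ) 1, ‖C‖ ≤ α - κ * ((1 - s) * z.re)
        + s / 2 * (‖(-(z.re : ℂ) + Complex.I) ^ 2 * u (((1 - s) * z.re : ℝ) + (s : ℂ) * Complex.I)‖
        + ‖(-(z.re : ℂ) - Complex.I) ^ 2
          * u (((1 - s) * z.re : ℝ) + ((-s : ℝ) : ℂ) * Complex.I)‖) := by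
      intro s hs'
      have hs0 : 0 < s := hs'.1
      have hmem : (((1 - s) * z.re : ℝ) : ℂ) + (s : ℂ) * Complex.I ∈ K := by
        have := hc hz hi (show 0 ≤ 1 - s by linarith [hs'.2]) hs0.le (by ring)
        convert this using 1
        apply Complex.ext <;> simp [h]
      have h1 := hP _ _ hs0 hmem
      rw [iteratedDeriv_zero, hf, hf, h] at h1
      have e1 : (((((1 - s) * z.re : ℝ) : ℂ) + (s : ℂ) * Complex.I - z.re) ^ 2
          + ((0 : ℝ) : ℂ) ^ 2) * u (((1 - s) * z.re : ℝ) + (s : ℂ) * Complex.I)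
          = (s : ℂ) ^ 2 * ((-(z.re : ℂ) + Complex.I) ^ 2
            * u (((1 - s) * z.re : ℝ) + (s : ℂ) * Complex.I)) := by
        push_cast; ring
      have e2 : (((((1 - s) * z.re : ℝ) : ℂ) + ((-s : ℝ) : ℂ) * Complex.I - z.re) ^ 2
          + ((0 : ℝ) : ℂ) ^ 2) * u (((1 - s) * z.re : ℝ) + ((-s : ℝ) : ℂ) * Complex.I)
          = (s : ℂ) ^ 2 * ((-(z.re : ℂ) - Complex.I) ^ 2
            * u (((1 - s) * z.re : ℝ) + ((-s : ℝ) : ℂ) * Complex.I)) := by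
        push_cast; ring
      rw [e1, e2] at h1
      obtain ⟨P, hPdef⟩ : ∃ P : ℂ, P = (-(z.re : ℂ) + Complex.I) ^ 2
            * u (((1 - s) * z.re : ℝ) + (s : ℂ) * Complex.I) := ⟨_, rfl⟩
      obtain ⟨Q, hQdef⟩ : ∃ Q : ℂ, Q = (-(z.re : ℂ) - Complex.I) ^ 2
            * u (((1 - s) * z.re : ℝ) + ((-s : ℝ) : ℂ) * Complex.I) := ⟨_, rfl⟩
      rw [← hPdef, ← hQdef] at h1 ⊢
      have h2 : ‖C * (2 * s * Complex.I)‖ ≤ 2 * s * (α - κ * ((1 - s) * z.re))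
          + ‖(s : ℂ) ^ 2 * P - (s : ℂ) ^ 2 * Q‖ := by
        have e : C * (2 * s * Complex.I) = (C * (2 * s * Complex.I)
          - ((s : ℂ) ^ 2 * P - (s : ℂ) ^ 2 * Q)) + ((s : ℂ) ^ 2 * P - (s : ℂ) ^ 2 * Q) := by ring
        rw [e]
        exact (norm_add_le _ _).trans (by linarith)
      have h3 : ‖C * (2 * s * Complex.I)‖ = ‖C‖ * (2 * s) := by
        rw [norm_mul, norm_mul, norm_mul, Complex.norm_real, Complex.norm_I,
          Real.norm_of_nonneg hs0.le]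
        simp
      have h4 : ‖(s : ℂ) ^ 2 * P - (s : ℂ) ^ 2 * Q‖ ≤ s ^ 2 * (‖P‖ + ‖Q‖) := by
        rw [← mul_sub, norm_mul, norm_pow, Complex.norm_real, Real.norm_of_nonneg hs0.le]
        gcongr
        exact norm_sub_le _ _
      rw [h3] at h2
      have h5 : ‖C‖ * (2 * s) ≤ (α - κ * ((1 - s) * z.re) + s / 2 * (‖P‖ + ‖Q‖)) * (2 * s) := by
        nlinarith
      exact le_of_mul_le_mul_right h5 (by positivity)
    have hcont : Continuous fun s : ℝ => α - κ * ((1 - s) * z.re)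
        + s / 2 * (‖(-(z.re : ℂ) + Complex.I) ^ 2 * u (((1 - s) * z.re : ℝ) + (s : ℂ) * Complex.I)‖
        + ‖(-(z.re : ℂ) - Complex.I) ^ 2
          * u (((1 - s) * z.re : ℝ) + ((-s : ℝ) : ℂ) * Complex.I)‖) := by
      have c1 : Continuous fun s : ℝ => u (((1 - s) * z.re : ℝ) + (s : ℂ) * Complex.I) :=
        hu.comp (by fun_prop)
      have c2 : Continuous fun s : ℝ => u (((1 - s) * z.re : ℝ) + ((-s : ℝ) : ℂ) * Complex.I) :=
        hu.comp (by fun_prop)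
      fun_prop
    have hlim := (hcont.tendsto 0).mono_left (nhdsWithin_le_nhds (s := Ioi (0 : ℝ)))
    have := ge_of_tendsto hlim (Filter.mem_of_superset (Ioo_mem_nhdsGT one_pos) hev)
    simpa using this
  · have hb : 0 < |z.im| := abs_pos.2 h
    have hmem : (z.re : ℂ) + ((|z.im| : ℝ) : ℂ) * Complex.I ∈ K := by
      rcases abs_cases z.im with ⟨h1, _⟩ | ⟨h1, _⟩
      · rw [h1, Complex.re_add_im]; exact hz
      · rw [h1]
        have h2 := hs z hz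
        convert h2 using 1
        apply Complex.ext <;> simp
    have h1 := hP _ _ hb hmem
    have hsq : ((|z.im| : ℝ) : ℂ) ^ 2 = (z.im : ℂ) ^ 2 := by
      rw [← Complex.ofReal_pow, sq_abs, Complex.ofReal_pow]
    have z1 : f ((z.re : ℂ) + ((|z.im| : ℝ) : ℂ) * Complex.I) = 0 := by
      rw [hf]
      have : ((z.re : ℂ) + ((|z.im| : ℝ) : ℂ) * Complex.I - z.re) ^ 2 + (z.im : ℂ) ^ 2 = 0 := by
        rw [← hsq]
        linear_combination (((|z.im| : ℝ) : ℂ) ^ 2) * Complex.I_sq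
      rw [this, zero_mul]
    have z2 : f ((z.re : ℂ) + ((-|z.im| : ℝ) : ℂ) * Complex.I) = 0 := by
      rw [hf]
      have : ((z.re : ℂ) + ((-|z.im| : ℝ) : ℂ) * Complex.I - z.re) ^ 2 + (z.im : ℂ) ^ 2 = 0 := by
        rw [← hsq]
        push_cast
        linear_combination (((|z.im| : ℝ) : ℂ) ^ 2) * Complex.I_sq
      rw [this, zero_mul]
    rw [iteratedDeriv_zero, z1, z2, sub_zero, sub_zero, norm_mul, norm_mul, norm_mul,
      Complex.norm_real, Complex.norm_I, Real.norm_of_nonneg hb.le] at h1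
    have h2 : ‖(2 : ℂ)‖ = 2 := by simp
    rw [h2] at h1
    nlinarith

theorem chain {K : Set ℂ} (hc : Convex ℝ K) (hs : ∀ w ∈ K, (starRingEnd ℂ) w ∈ K)
    (hi : Complex.I ∈ K) {u : ℂ → ℂ} (hu : ContDiff ℂ ⊤ u) {z0 : ℂ} (hz0 : z0 ∈ K) (L : List ℂ) :
    (∀ z ∈ L, z ∈ K) → ∀ f : ℂ → ℂ,
    (∀ w, f w = qprod L w * (((w - z0.re) ^ 2 + (z0.im : ℂ) ^ 2) * u w)) →
    ∀ (C : ℂ) (α κ : ℝ), VInc K f (2 * L.length) C α κ →
    ‖C‖ ≤ α - κ * ((z0.re + (L.map Complex.re).sum) / (L.length + 1)) := by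
  induction L with
  | nil =>
    intro _ f hf C α κ hP
    have h1 := bottom hc hs hi hz0 hu.continuous (f := f) (fun w => by rw [hf]; simp [qprod]) hP
    simpa using h1
  | cons z L ih =>
    intro hL f hf C α κ hP
    have hP' : VInc K f (2 * L.length + 2) C α κ := by
      have e : 2 * (z :: L).length = 2 * L.length + 2 := by simp; ring
      rwa [e] at hP
    have hst := step hc hs (hL z (by simp))
      (f₂ := fun w => qprod L w * (((w - z0.re) ^ 2 + (z0.im : ℂ) ^ 2) * u w))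
      ((qprod_contDiff L).mul ((((contDiff_id.sub contDiff_const).pow 2).add contDiff_const).mul hu))
      (fun w => by rw [hf]; simp only [qprod, List.map_cons, List.prod_cons]; ring)
      (2 * L.length) hP'
    have h1 := ih (fun y hy => hL y (by simp [hy])) _ (fun w => rfl) _ _ _ hst
    rw [norm_mul, Complex.norm_real, Real.norm_of_nonneg (by positivity)] at h1
    simp only [List.map_cons, List.sum_cons, List.length_cons]
    push_cast at h1 ⊢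
    obtain ⟨l, hl, hl0⟩ : ∃ l : ℝ, l = (L.length : ℝ) ∧ 0 ≤ l := ⟨_, rfl, by positivity⟩
    rw [← hl] at h1 ⊢
    obtain ⟨S, hS⟩ : ∃ S : ℝ, S = (L.map Complex.re).sum := ⟨_, rfl⟩
    rw [← hS] at h1 ⊢
    have e : α * (1 / ((2 * l + 2) * (2 * l + 3)))
        - κ * z.re * (2 / ((2 * l + 2) * (2 * l + 3) * (2 * l + 4)))
        - κ * (1 / ((2 * l + 3) * (2 * l + 4))) * ((z0.re + S) / (l + 1))
        = (α - κ * ((z0.re + (z.re + S)) / (l + 1 + 1))) * (1 / ((2 * l + 2) * (2 * l + 3))) := by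
      have h1 : 2 * l + 2 ≠ 0 := by positivity
      have h2 : 2 * l + 3 ≠ 0 := by positivity
      have h3 : 2 * l + 4 ≠ 0 := by positivity
      have h4 : l + 1 ≠ 0 := by positivity
      have h5 : l + 1 + 1 ≠ 0 := by positivity
      field_simp
      ring
    rw [e] at h1
    exact le_of_mul_le_mul_right h1 (by positivity)

end Pool.Agent.SelfConjInterp
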