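import Mathlib
import Pool.Agent.SelfConjInterp.Step

open Polynomial Set

namespace Pool.Agent.SelfConjInterp

open Pool.Agent.Results.MP_832e94_an.NTwo

/-- an entire function with prescribed zeros is divisible by the corresponding product -/
theorem factor (s : Multiset ℂ) : ∀ h : ℂ → ℂ, Differentiable ℂ h →
    (∀ w, ((s.count w : ℕ) : ℕ∞) ≤ analyticOrderAt h w) →
    ∃ u : ℂ → ℂ, Differentiable ℂ u ∧ ∀ w, h w = (s.map (fun z => w - z)).prod * u w := by
  induction s using Multiset.induction_on with
  | empty =>
    intro h hd _
    exact ⟨h, hd, fun w => by simp⟩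
  | cons z s ih =>
    intro h hd hord
    have han : ∀ w, AnalyticAt ℂ h w := fun w => hd.analyticAt w
    have hz : h z = 0 := by
      have h1 := hord z
      have h2 : analyticOrderAt h z ≠ 0 := by
        intro h0
        rw [h0, Multiset.count_cons_self] at h1
        simp at h1
      exact apply_eq_zero_of_analyticOrderAt_ne_zero h2
    have hkd : Differentiable ℂ (dslope h z) := by
      rw [← differentiableOn_univ]
      exact (Complex.differentiableOn_dslope Filter.univ_mem).2 hd.differentiableOn
    have hfac : ∀ w, h w = (w - z) * dslope h z w := by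
      intro w
      have := sub_smul_dslope h z w
      rw [hz, sub_zero] at this
      rw [← this, smul_eq_mul]
    have hord' : ∀ w, ((s.count w : ℕ) : ℕ∞) ≤ analyticOrderAt (dslope h z) w := by
      intro w
      have hlin : AnalyticAt ℂ (fun w => w - z) w := by fun_prop
      have e : h = (fun w => w - z) * dslope h z := funext hfac
      have h1 := hord w
      rw [e, analyticOrderAt_mul hlin (hkd.analyticAt w)] at h1
      by_cases hw : w = z
      · subst hw
        have h2 : analyticOrderAt (fun y => y - w) w = 1 := by
          apply hlin.analyticOrderAt_eq_one_of_zero_deriv_ne_zero (by simp)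
          have : deriv (fun y => y - w) w = 1 := by simp
          rw [this]; exact one_ne_zero
        rw [h2, Multiset.count_cons_self, Nat.cast_add, Nat.cast_one, add_comm] at h1
        exact (ENat.add_le_add_iff_left (by simp)).1 h1
      · have h2 : analyticOrderAt (fun y => y - z) w = 0 := by
          rw [hlin.analyticOrderAt_eq_zero]
          exact sub_ne_zero.2 hw
        rw [h2, zero_add, Multiset.count_cons_of_ne hw] at h1
        exact h1
    obtain ⟨u, hu, hu2⟩ := ih (dslope h z) hkd hord'
    refine ⟨u, hu, fun w => ?_⟩
    rw [hfac, hu2, Multiset.map_cons, Multiset.prod_cons]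
    ring

/-- a self-conjugate multiset is a union of conjugate pairs -/
theorem pairs (N : ℕ) : ∀ s : Multiset ℂ, s.card = N →
    (∀ w, s.count ((starRingEnd ℂ) w) = s.count w) → (∀ r : ℝ, Even (s.count (r : ℂ))) →
    ∃ L : List ℂ, (∀ z ∈ L, z ∈ s) ∧ s.card = 2 * L.length ∧
      (∀ w, (s.map (fun z => w - z)).prod = qprod L w) ∧
      s.sum = ((2 * (L.map Complex.re).sum : ℝ) : ℂ) := by
  induction N using Nat.strong_induction_on with
  | _ N ih =>
    intro s hN hsym heven
    rcases Multiset.empty_or_exists_mem s with h0 | ⟨z, hz⟩
    · exact ⟨[], by simp, by simp [h0], fun w => by simp [h0, qprod], by simp [h0]⟩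
    · obtain ⟨t, rfl⟩ := Multiset.exists_cons_of_mem hz
      have hzt : (starRingEnd ℂ) z ∈ t := by
        by_cases hr : (starRingEnd ℂ) z = z
        · obtain ⟨r, hr'⟩ := Complex.conj_eq_iff_real.1 hr
          have h2 := heven r
          rw [← hr', Multiset.count_cons_self] at h2
          rw [hr]
          by_contra hn
          rw [Multiset.count_eq_zero_of_notMem hn] at h2
          simp at h2
        · have h2 := hsym z
          rw [Multiset.count_cons_self, Multiset.count_cons_of_ne hr] at h2
          apply Multiset.count_pos.1
          omega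
      obtain ⟨t', rfl⟩ := Multiset.exists_cons_of_mem hzt
      have hcc : ∀ w, (starRingEnd ℂ) ((starRingEnd ℂ) w) = w := Complex.conj_conj
      have hcount : ∀ w, (z ::ₘ (starRingEnd ℂ) z ::ₘ t').count w
          = t'.count w + (if w = (starRingEnd ℂ) z then 1 else 0) + (if w = z then 1 else 0) := by
        intro w
        rw [Multiset.count_cons, Multiset.count_cons]
      have hsym' : ∀ w, t'.count ((starRingEnd ℂ) w) = t'.count w := by
        intro w
        have h2 := hsym w
        rw [hcount, hcount] at h2
        have e1 : ((starRingEnd ℂ) w = (starRingEnd ℂ) z) ↔ w = z :=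
          ⟨fun h => by rw [← hcc w, h, hcc], fun h => by rw [h]⟩
        have e2 : ((starRingEnd ℂ) w = z) ↔ w = (starRingEnd ℂ) z :=
          ⟨fun h => by rw [← h, hcc], fun h => by rw [h, hcc]⟩
        simp only [e1, e2] at h2
        omega
      have heven' : ∀ r : ℝ, Even (t'.count (r : ℂ)) := by
        intro r
        have h2 := heven r
        rw [hcount] at h2
        have e : ((r : ℂ) = (starRingEnd ℂ) z) ↔ (r : ℂ) = z := by
          constructor
          · intro h
            have := congrArg (starRingEnd ℂ) h
            rwa [Complex.conj_ofReal, hcc] at this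
          · intro h
            rw [← h, Complex.conj_ofReal]
        by_cases h3 : (r : ℂ) = z
        · rw [if_pos (e.2 h3), if_pos h3] at h2
          rw [Nat.even_iff] at h2 ⊢
          omega
        · rw [if_neg (fun h => h3 (e.1 h)), if_neg h3] at h2
          simpa using h2
      have hcard : (z ::ₘ (starRingEnd ℂ) z ::ₘ t').card = t'.card + 2 := by simp
      obtain ⟨L, hL1, hL2, hL3, hL4⟩ := ih t'.card (by omega) t' rfl hsym' heven'
      refine ⟨z :: L, ?_, ?_, ?_, ?_⟩
      · intro y hy
        rcases List.mem_cons.1 hy with h | h
        · rw [h]; simp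
        · exact Multiset.mem_cons_of_mem (Multiset.mem_cons_of_mem (hL1 y h))
      · rw [hcard, hL2, List.length_cons]; ring
      · intro w
        have h5 := hL3 w
        rw [Multiset.map_cons, Multiset.map_cons, Multiset.prod_cons, Multiset.prod_cons, h5]
        simp only [qprod, List.map_cons, List.prod_cons]
        rw [← mul_assoc]
        congr 1
        have hz1 : z = (z.re : ℂ) + (z.im : ℂ) * Complex.I := (Complex.re_add_im z).symm
        have hz2 : (starRingEnd ℂ) z = (z.re : ℂ) - (z.im : ℂ) * Complex.I := by
          apply Complex.ext <;> simp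
        rw [hz2]
        conv_lhs => rw [hz1]
        simp only [Complex.add_re, Complex.ofReal_re, Complex.mul_re, Complex.I_re, mul_zero,
          Complex.ofReal_im, Complex.I_im, mul_one, sub_self, add_zero, Complex.add_im,
          Complex.mul_im, zero_add]
        linear_combination (-(z.im : ℂ) ^ 2) * Complex.I_sq
      · rw [Multiset.sum_cons, Multiset.sum_cons, hL4]
        simp only [List.map_cons, List.sum_cons]
        apply Complex.ext
        · simp; ring
        · simp

theorem iteratedDeriv_poly (p : ℂ[X]) (k : ℕ) :
    iteratedDeriv k (fun w => p.eval w) = fun w => (derivative^[k] p).eval w := by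
  induction k with
  | zero => simp [iteratedDeriv_zero]
  | succ k ih =>
    rw [iteratedDeriv_succ, ih, Function.iterate_succ_apply']
    funext w
    exact Polynomial.deriv _

theorem mult_eq {n : ℕ} (z : Fin n → ℂ) (w : ℂ) :
    mult z w = (Finset.univ.val.map z).count w := by
  unfold mult
  rw [Multiset.count_map, Finset.card_def, Finset.filter_val]
  congr 1
  apply Multiset.filter_congr
  intro j _
  exact eq_comm

theorem nodePoly_eq {n : ℕ} (z : Fin n → ℂ) :
    nodePoly z = ((Finset.univ.val.map z).map (fun a => X - C a)).prod := by
  unfold nodePoly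
  rw [Multiset.map_map]
  rfl

end Pool.Agent.SelfConjInterp
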