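import Mathlib
import Pool.Agent.SelfConjInterp.Factor

open Polynomial Set

namespace Pool.Agent.SelfConjInterp

open Pool.Agent.Results.MP_832e94_an.NTwo

/-- region data with a general affine majorant `α - κ X` -/
structure GoodA (x α κ : ℝ) (K : Set ℂ) : Prop where
  conv : Convex ℝ K
  disc : ∀ w ∈ K, ‖w‖ ≤ 1
  sym : ∀ w ∈ K, (starRingEnd ℂ) w ∈ K
  near : ∀ X r : ℝ, 0 < r → (X : ℂ) + (r : ℂ) * Complex.I ∈ K → |x - X| ≤ α - κ * X
  far : ∀ X r : ℝ, 0 < r → (X : ℂ) + (r : ℂ) * Complex.I ∈ K → |x - X| ≤ r →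
    (x - X) ^ 2 + r ^ 2 ≤ 2 * r * (α - κ * X)

theorem baseA {x α κ : ℝ} {K : Set ℂ} (hK : GoodA x α κ K) (hx : |x| ≤ 1) {f : ℂ → ℂ} {N : ℕ}
    (hd : Differentiable ℂ (iteratedDeriv N f))
    (hb : ∀ w : ℂ, ‖w‖ ≤ 1 → ‖iteratedDeriv (N + 2) f w‖ ≤ 1) :
    VInc K f N (iteratedDeriv (N + 1) f x) α κ := by
  intro X r hr hmem
  have hxn : ‖(x : ℂ)‖ ≤ 1 := by rw [Complex.norm_real]; exact hx
  have hb' : ∀ w : ℂ, ‖w‖ ≤ 1 → ‖deriv (deriv (iteratedDeriv N f)) w‖ ≤ 1 := by
    intro w hw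
    have := hb w hw
    rwa [iteratedDeriv_succ, iteratedDeriv_succ] at this
  obtain ⟨F, hF, hF0, hFv, -, hFb⟩ := taylor hd hb' hxn
  have hdisc : X ^ 2 + r ^ 2 ≤ 1 := by
    have h1 := hK.disc _ hmem
    have h2 : ‖(X : ℂ) + (r : ℂ) * Complex.I‖ ^ 2 ≤ 1 := pow_le_one₀ (norm_nonneg _) h1
    rwa [← Complex.normSq_eq_norm_sq, Complex.normSq_add_mul_I] at h2
  have hdiff : iteratedDeriv (N + 1) f x * (2 * r * Complex.I)
      - (iteratedDeriv N f ((X : ℂ) + (r : ℂ) * Complex.I)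
      - iteratedDeriv N f ((X : ℂ) + ((-r : ℝ) : ℂ) * Complex.I))
      = -(F ((X : ℂ) + (r : ℂ) * Complex.I) - F ((X : ℂ) + ((-r : ℝ) : ℂ) * Complex.I)) := by
    rw [hFv, hFv, iteratedDeriv_succ]; push_cast; ring
  rw [hdiff, norm_neg]
  rcases lt_or_ge r (|x - X|) with hlt | hge
  · refine (hyper hF hx hdisc hr hlt hFb).trans ?_
    have := hK.near X r hr hmem
    nlinarith
  · have hz : ∀ c : ℝ, c ^ 2 = r ^ 2 → ‖(X : ℂ) + (c : ℂ) * Complex.I‖ ≤ 1 := by
      intro c hc
      have : ‖(X : ℂ) + (c : ℂ) * Complex.I‖ ^ 2 ≤ 1 := by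
        rw [← Complex.normSq_eq_norm_sq, Complex.normSq_add_mul_I, hc]; exact hdisc
      exact (pow_le_one_iff_of_nonneg (norm_nonneg _) two_ne_zero).1 this
    have hq : ∀ c : ℝ, c ^ 2 = r ^ 2 → ‖F ((X : ℂ) + (c : ℂ) * Complex.I)‖
        ≤ ((x - X) ^ 2 + r ^ 2) / 2 := by
      intro c hc
      have h3 := quad hF hxn (hz c hc) hF0 hFb
      refine h3.trans (le_of_eq ?_)
      have : (X : ℂ) + (c : ℂ) * Complex.I - x = ((X - x : ℝ) : ℂ) + (c : ℂ) * Complex.I := by
        push_cast; ring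
      rw [this, ← Complex.normSq_eq_norm_sq, Complex.normSq_add_mul_I, hc]
      ring
    have h4 := norm_sub_le (F ((X : ℂ) + (r : ℂ) * Complex.I))
      (F ((X : ℂ) + ((-r : ℝ) : ℂ) * Complex.I))
    have h5 := hq r rfl
    have h6 := hq (-r) (by ring)
    have h7 := hK.far X r hr hmem hge
    linarith

/-- the arithmetic mean of the real parts of the nodes -/
noncomputable def mean {n : ℕ} (z : Fin n → ℂ) : ℝ := (∑ j, (z j).re) / n

theorem main_upperA {n : ℕ} (hn : 0 < n) (z : Fin n → ℂ) (hsc : SelfConj z) :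
    (∀ x : ℝ, ‖(derivative^[n - 1] (nodePoly z)).eval (x : ℂ)‖ / (n.factorial : ℝ)
        = |x - mean z|) ∧
      ∀ (K : Set ℂ) (x α κ : ℝ), |x| ≤ 1 → GoodA x α κ K → Complex.I ∈ K → (∀ j, z j ∈ K) →
        ∀ (g : ℂ → ℂ) (p : ℂ[X]), InE n g → IsInterpolant g z p →
          ‖iteratedDeriv (n - 1) (fun w => g w - p.eval w) (x : ℂ)‖ ≤ α - κ * mean z := by
  obtain ⟨s, hs⟩ : ∃ s : Multiset ℂ, s = Finset.univ.val.map z := ⟨_, rfl⟩
  have hcard : s.card = n := by rw [hs]; simp
  obtain ⟨L, hL1, hL2, hL3, hL4⟩ := pairs s.card s rfl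
    (fun w => by rw [hs, ← mult_eq, ← mult_eq]; exact hsc.1 w)
    (fun r => by rw [hs, ← mult_eq]; exact hsc.2 r)
  rw [hcard] at hL2
  rcases L with _ | ⟨z0, L⟩
  · simp at hL2; omega
  have hn2 : n = 2 * L.length + 2 := by rw [hL2, List.length_cons]; ring
  have hl1 : (0 : ℝ) < L.length + 1 := by positivity
  have hmean : mean z = (z0.re + (L.map Complex.re).sum) / (L.length + 1) := by
    have h1 : (∑ j, (z j).re) = 2 * (z0.re + (L.map Complex.re).sum) := by
      have h2 : (∑ j, z j) = s.sum := by rw [hs]; rfl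
      have h3 := congrArg Complex.re (h2.trans hL4)
      rw [Complex.re_sum] at h3
      rw [h3, Complex.ofReal_re, List.map_cons, List.sum_cons]
    unfold mean
    rw [h1, show (n : ℝ) = 2 * (L.length + 1) by rw [hn2]; push_cast; ring]
    field_simp
  rw [hmean]
  refine ⟨?_, ?_⟩
  · intro x
    have hf : nodePoly z = (s.map (fun a => X - C a)).prod := by rw [hs]; exact nodePoly_eq z
    have hmon : (nodePoly z).Monic := by
      rw [hf]; exact monic_multiset_prod_of_monic _ _ fun a _ => monic_X_sub_C a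
    have hdeg : (nodePoly z).natDegree = n := by
      rw [hf, natDegree_multiset_prod_X_sub_C_eq_card, hcard]
    have hc1 : (nodePoly z).coeff (n - 1) = -s.sum := by
      rw [hf, ← hcard]
      exact multiset_prod_X_sub_C_coeff_card_pred s (by rw [hcard]; exact hn)
    have hd1 : (derivative^[n - 1] (nodePoly z)).natDegree ≤ 1 := by
      refine (natDegree_iterate_derivative _ _).trans ?_
      rw [hdeg]; omega
    have hform := eq_X_add_C_of_natDegree_le_one hd1
    rw [coeff_iterate_derivative, coeff_iterate_derivative, zero_add, hc1,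
      show 1 + (n - 1) = n by omega, Nat.descFactorial_self] at hform
    have hlead : (nodePoly z).coeff n = 1 := by
      have := hmon.coeff_natDegree
      rwa [hdeg] at this
    rw [hlead] at hform
    have hdf : n.descFactorial (n - 1) = n.factorial := by
      have h1 := Nat.descFactorial_succ n (n - 1)
      rw [show n - 1 + 1 = n by omega, Nat.descFactorial_self, show n - (n - 1) = 1 by omega,
        one_mul] at h1
      exact h1.symm
    rw [hdf] at hform
    rw [hform, hL4]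
    have hnf : (n.factorial : ℝ) = n * ((n - 1).factorial : ℝ) := by
      exact_mod_cast (Nat.mul_factorial_pred hn.ne').symm
    have hfp : (0 : ℝ) < ((n - 1).factorial : ℝ) := by exact_mod_cast Nat.factorial_pos _
    have hev : (C ((n.factorial) • (1 : ℂ)) * X + C (((n - 1).factorial) •
        (-((2 * ((z0 :: L).map Complex.re).sum : ℝ) : ℂ)))).eval (x : ℂ)
        = (((n.factorial : ℝ) * (x - (z0.re + (L.map Complex.re).sum) / (L.length + 1)) : ℝ) : ℂ) := by
      simp only [eval_add, eval_mul, eval_C, eval_X, List.map_cons, List.sum_cons, nsmul_eq_mul]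
      rw [hnf, show (n : ℝ) = 2 * (L.length + 1) by rw [hn2]; push_cast; ring]
      have h1 : (n.factorial : ℂ) = ((n.factorial : ℝ) : ℂ) := by push_cast; rfl
      rw [h1, hnf, show (n : ℝ) = 2 * (L.length + 1) by rw [hn2]; push_cast; ring]
      push_cast
      have h2 : (L.length : ℂ) + 1 ≠ 0 := by
        have := hl1.ne'
        exact_mod_cast this
      field_simp
      ring
    rw [hev, Complex.norm_real, Real.norm_eq_abs, abs_mul, abs_of_pos (by positivity)]
    field_simp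
  · intro K x α κ hx hG hI hzK g p hg hp
    have hdd : Differentiable ℂ (fun w => g w - p.eval w) := hg.1.sub p.differentiable
    have hcd : ContDiff ℂ ⊤ (fun w => g w - p.eval w) := hdd.contDiff
    obtain ⟨u, hu, hfac⟩ := factor s (fun w => g w - p.eval w) hdd (by
      intro w
      rw [natCast_le_analyticOrderAt_iff_iteratedDeriv_eq_zero (hdd.analyticAt w)]
      intro i hi
      exact hp.2 w i (by rw [mult_eq, ← hs]; exact hi))
    have hzero : derivative^[n] p = 0 := iterate_derivative_eq_zero (by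
      by_cases h0 : p = 0
      · rw [h0]; simpa using hn
      · exact (natDegree_lt_iff_degree_lt h0).2 hp.1)
    have hbn : ∀ w : ℂ, ‖w‖ ≤ 1 →
        ‖iteratedDeriv (2 * L.length + 2) (fun w => g w - p.eval w) w‖ ≤ 1 := by
      intro w hw
      have h1 := hg.2 w hw
      have e : (fun w => g w - p.eval w) = g - fun w => p.eval w := rfl
      rw [← hn2, e, iteratedDeriv_sub hg.1.contDiff.contDiffAt p.differentiable.contDiff.contDiffAt,
        iteratedDeriv_poly, hzero]
      simpa using h1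
    have hbase := baseA hG hx (N := 2 * L.length)
      (hcd.differentiable_iteratedDeriv _ (by exact_mod_cast WithTop.coe_lt_top _)) hbn
    have hmemK : ∀ y ∈ z0 :: L, y ∈ K := by
      intro y hy
      have h1 := hL1 y hy
      rw [hs, Multiset.mem_map] at h1
      obtain ⟨j, _, rfl⟩ := h1
      exact hzK j
    have hch := chain hG.conv hG.sym hI hu.contDiff (hmemK z0 (by simp)) L
      (fun y hy => hmemK y (by simp [hy])) (fun w => g w - p.eval w)
      (fun w => by
        rw [hfac, hL3]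
        simp only [qprod, List.map_cons, List.prod_cons]
        ring) _ _ _ hbase
    rw [show n - 1 = 2 * L.length + 1 by omega]
    exact hch

/-- the key inequality at the endpoint `x = 1` -/
theorem end_one {X r : ℝ} (hr : 0 < r) (hd : X ^ 2 + r ^ 2 ≤ 1) (h1 : 1 - X ≤ r) :
    (1 - X) ^ 2 + r ^ 2 ≤ 2 * r * (27 / 25 - 23 / 25 * X) := by
  have hX1 : X ≤ 1 := by nlinarith [sq_nonneg r]
  have hX0 : 0 ≤ X := by
    by_contra h
    push Not at h
    nlinarith
  have hR0 : 0 ≤ 1 - X ^ 2 := by nlinarith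
  obtain ⟨R, hR⟩ : ∃ R : ℝ, R = Real.sqrt (1 - X ^ 2) := ⟨_, rfl⟩
  have hRn : 0 ≤ R := by rw [hR]; exact Real.sqrt_nonneg _
  have hR2 : R ^ 2 = 1 - X ^ 2 := by rw [hR]; exact Real.sq_sqrt hR0
  have hrR : r ≤ R := by
    rw [hR]; exact Real.le_sqrt_of_sq_le (by linarith)
  have hL : 0 < 27 / 25 - 23 / 25 * X := by linarith
  -- value at `R`
  have hcub : 1 - X ≤ (1 + X) * (27 / 25 - 23 / 25 * X) ^ 2 := by
    nlinarith [mul_nonneg hX0 (sq_nonneg (X - 81 / 100)), sq_nonneg (X - 81 / 100),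
      mul_nonneg hX0 (sub_nonneg.2 hX1)]
  have hRL : 1 - X ≤ R * (27 / 25 - 23 / 25 * X) := by
    apply le_of_sq_le_sq _ (by positivity)
    rw [mul_pow, hR2]
    nlinarith
  have hqR : R ^ 2 - 2 * R * (27 / 25 - 23 / 25 * X) + (1 - X) ^ 2 ≤ 0 := by nlinarith
  have hqd : (1 - X) ^ 2 - 2 * (1 - X) * (27 / 25 - 23 / 25 * X) + (1 - X) ^ 2 ≤ 0 := by
    nlinarith [mul_nonneg (sub_nonneg.2 hX1) hX0]
  rcases h1.eq_or_lt with he | hlt
  · rw [← he]; nlinarith
  · have hlt2 : 1 - X < R := lt_of_lt_of_le hlt hrR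
    have key : (R - (1 - X)) * (r ^ 2 - 2 * r * (27 / 25 - 23 / 25 * X) + (1 - X) ^ 2) ≤ 0 := by
      have e : (R - (1 - X)) * (r ^ 2 - 2 * r * (27 / 25 - 23 / 25 * X) + (1 - X) ^ 2)
          = (R - r) * ((1 - X) ^ 2 - 2 * (1 - X) * (27 / 25 - 23 / 25 * X) + (1 - X) ^ 2)
          + (r - (1 - X)) * (R ^ 2 - 2 * R * (27 / 25 - 23 / 25 * X) + (1 - X) ^ 2)
          - (R - (1 - X)) * (r - (1 - X)) * (R - r) := by ring
      rw [e]
      have t1 : (R - r) * ((1 - X) ^ 2 - 2 * (1 - X) * (27 / 25 - 23 / 25 * X) + (1 - X) ^ 2) ≤ 0 :=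
        mul_nonpos_of_nonneg_of_nonpos (by linarith) hqd
      have t2 : (r - (1 - X)) * (R ^ 2 - 2 * R * (27 / 25 - 23 / 25 * X) + (1 - X) ^ 2) ≤ 0 :=
        mul_nonpos_of_nonneg_of_nonpos (by linarith) hqR
      have t3 : 0 ≤ (R - (1 - X)) * (r - (1 - X)) * (R - r) :=
        mul_nonneg (mul_nonneg (by linarith) (by linarith)) (by linarith)
      linarith
    have hpos : 0 < R - (1 - X) := by linarith
    have := nonpos_of_mul_nonpos_right key hpos
    linarith

end Pool.Agent.SelfConjInterp
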