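import Mathlib
import Pool.Agent.SelfConjInterp.Factor

open Polynomial Set

namespace Pool.Agent.Results.MP_832e94_an.TopDerivative

open Pool.Agent.Results.MP_832e94_an.NTwo Pool.Agent.SelfConjInterp

theorem sq_add_sq_le {X r : ℝ} (h : ‖(X : ℂ) + (r : ℂ) * Complex.I‖ ≤ 1) : X ^ 2 + r ^ 2 ≤ 1 := by
  have h2 : ‖(X : ℂ) + (r : ℂ) * Complex.I‖ ^ 2 ≤ 1 := pow_le_one₀ (norm_nonneg _) h
  rwa [← Complex.normSq_eq_norm_sq, Complex.normSq_add_mul_I] at h2

theorem re_eq (X r : ℝ) : ((X : ℂ) + (r : ℂ) * Complex.I).re = X := by simp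

theorem im_eq (X r : ℝ) : ((X : ℂ) + (r : ℂ) * Complex.I).im = r := by simp

theorem good1 {x : ℝ} (hx : |x| ≤ 1) : Good x 1 {w : ℂ | ‖w‖ ≤ 1 ∧ w.re ≤ 0} where
  conv := by
    have e : {w : ℂ | ‖w‖ ≤ 1 ∧ w.re ≤ 0} = Metric.closedBall 0 1 ∩ {w : ℂ | w.re ≤ 0} := by
      ext w; simp
    rw [e]
    exact (convex_closedBall _ _).inter (convex_halfSpace_re_le 0)
  disc := fun w hw => hw.1
  sym := fun w hw => ⟨by simpa using hw.1, by simpa using hw.2⟩
  near := by
    intro X r hr hm
    have h1 : X ≤ 0 := by have := hm.2; rwa [re_eq] at this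
    have ⟨h2, h3⟩ := abs_le.1 hx
    rw [abs_le]
    constructor <;> linarith
  far := by
    intro X r hr hm hd
    have h1 : X ≤ 0 := by have := hm.2; rwa [re_eq] at this
    have h2 := sq_add_sq_le hm.1
    have h3 : (x - X) ^ 2 ≤ r ^ 2 := by
      rw [← sq_abs (x - X)]; exact pow_le_pow_left₀ (abs_nonneg _) hd 2
    have h4 : r ≤ 1 := by nlinarith [sq_nonneg X]
    nlinarith

theorem good2 {x : ℝ} (hx : |x| ≤ 1) : Good x (-1) {w : ℂ | ‖w‖ ≤ 1 ∧ 0 ≤ w.re} where
  conv := by
    have e : {w : ℂ | ‖w‖ ≤ 1 ∧ 0 ≤ w.re} = Metric.closedBall 0 1 ∩ {w : ℂ | 0 ≤ w.re} := by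
      ext w; simp
    rw [e]
    exact (convex_closedBall _ _).inter (convex_halfSpace_re_ge 0)
  disc := fun w hw => hw.1
  sym := fun w hw => ⟨by simpa using hw.1, by simpa using hw.2⟩
  near := by
    intro X r hr hm
    have h1 : 0 ≤ X := by have := hm.2; rwa [re_eq] at this
    have ⟨h2, h3⟩ := abs_le.1 hx
    rw [abs_le]
    constructor <;> linarith
  far := by
    intro X r hr hm hd
    have h1 : 0 ≤ X := by have := hm.2; rwa [re_eq] at this
    have h2 := sq_add_sq_le hm.1
    have h3 : (x - X) ^ 2 ≤ r ^ 2 := by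
      rw [← sq_abs (x - X)]; exact pow_le_pow_left₀ (abs_nonneg _) hd 2
    have h4 : r ≤ 1 := by nlinarith [sq_nonneg X]
    nlinarith

theorem good3 {x : ℝ} (hx : |x| ≤ 1) : Good x x {w : ℂ | |w.re| + |w.im| ≤ 1} where
  conv := by
    intro u hu v hv s t hs ht hst
    simp only [mem_ofPred_eq, Complex.add_re, Complex.real_smul, Complex.mul_re,
      Complex.ofReal_re, Complex.ofReal_im, zero_mul, sub_zero, Complex.add_im, Complex.mul_im,
      add_zero] at hu hv ⊢
    have h1 := abs_add_le (s * u.re) (t * v.re)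
    have h2 := abs_add_le (s * u.im) (t * v.im)
    rw [abs_mul, abs_mul, abs_of_nonneg hs, abs_of_nonneg ht] at h1 h2
    nlinarith
  disc := fun w hw => (Complex.norm_le_abs_re_add_abs_im w).trans hw
  sym := fun w hw => by
    simp only [mem_ofPred_eq, Complex.conj_re, Complex.conj_im, abs_neg] at hw ⊢
    exact hw
  near := by
    intro X r hr hm
    simp only [mem_ofPred_eq] at hm
    rw [re_eq, im_eq] at hm
    have h0 : |X| ≤ 1 := by linarith [abs_nonneg r]
    have ⟨h2, h3⟩ := abs_le.1 hx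
    have ⟨h4, h5⟩ := abs_le.1 h0
    rw [abs_le]
    constructor <;> nlinarith
  far := by
    intro X r hr hm hd
    simp only [mem_ofPred_eq] at hm
    rw [re_eq, im_eq, abs_of_pos hr] at hm
    have h1 : (x - X) ^ 2 ≤ r ^ 2 := by
      rw [← sq_abs (x - X)]; exact pow_le_pow_left₀ (abs_nonneg _) hd 2
    have h2 : (x - X) * X ≤ r * |X| := by
      calc (x - X) * X ≤ |(x - X) * X| := le_abs_self _
        _ = |x - X| * |X| := abs_mul _ _
        _ ≤ r * |X| := mul_le_mul_of_nonneg_right hd (abs_nonneg _)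
    have h3 : X ^ 2 = |X| ^ 2 := (sq_abs X).symm
    have h4 : r * ((x - X) * X) ≤ r * (r * |X|) := mul_le_mul_of_nonneg_left h2 hr.le
    have h5 : 0 ≤ r * (1 + |X|) * (1 - |X| - r) :=
      mul_nonneg (mul_nonneg hr.le (by positivity)) (by linarith)
    nlinarith

/-- The arithmetic mean of the real parts of the nodes, through the top derivatives of `f` and of
the interpolation error. -/
theorem main_upper {n : ℕ} (hn : 0 < n) (z : Fin n → ℂ) (hsc : SelfConj z) :
    ∃ A : ℝ, (∀ x : ℝ, ‖(derivative^[n - 1] (nodePoly z)).eval (x : ℂ)‖ / (n.factorial : ℝ)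
        = |x - A|) ∧
      ∀ (K : Set ℂ) (x κ : ℝ), |x| ≤ 1 → Good x κ K → Complex.I ∈ K → (∀ j, z j ∈ K) →
        ∀ (g : ℂ → ℂ) (p : ℂ[X]), InE n g → IsInterpolant g z p →
          ‖iteratedDeriv (n - 1) (fun w => g w - p.eval w) (x : ℂ)‖ ≤ 1 - κ * A := by
  obtain ⟨s, hs⟩ : ∃ s : Multiset ℂ, s = Finset.univ.val.map z := ⟨_, rfl⟩
  have hcard : s.card = n := by rw [hs]; simp
  obtain ⟨L, hL1, hL2, hL3, hL4⟩ := pairs s.card s rfl
    (fun w => by rw [hs, ← mult_eq, ← mult_eq]; exact hsc.1 w)
    (fun r => by rw [hs, ← mult_eq]; exact hsc.2 r)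
  rw [hcard] at hL2
  rcases L with _ | ⟨z0, L⟩
  · simp at hL2; omega
  have hn2 : n = 2 * L.length + 2 := by rw [hL2, List.length_cons]; ring
  have hl1 : (0 : ℝ) < L.length + 1 := by positivity
  refine ⟨(z0.re + (L.map Complex.re).sum) / (L.length + 1), ?_, ?_⟩
  · intro x
    have hf : nodePoly z = (s.map (fun a => X - C a)).prod := by rw [hs]; exact nodePoly_eq z
    have hmon : (nodePoly z).Monic := by
      rw [hf]; exact monic_multiset_prod_of_monic _ _ fun a _ => monic_X_sub_C a
    have hdeg : (nodePoly z).natDegree = n := by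
      rw [hf, natDegree_multiset_prod_X_sub_C_eq_card, hcard]
    have hc1 : (nodePoly z).coeff (n - 1) = -s.sum := by
      rw [hf, ← hcard]
      exact multiset_prod_X_sub_C_coeff_card_pred s (by rw [hcard]; exact hn)
    have hd1 : (derivative^[n - 1] (nodePoly z)).natDegree ≤ 1 := by
      refine (natDegree_iterate_derivative _ _).trans ?_
      rw [hdeg]; omega
    have hform := eq_X_add_C_of_natDegree_le_one hd1
    rw [coeff_iterate_derivative, coeff_iterate_derivative, zero_add, hc1,
      show 1 + (n - 1) = n by omega, Nat.descFactorial_self] at hform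
    have hlead : (nodePoly z).coeff n = 1 := by
      have := hmon.coeff_natDegree
      rwa [hdeg] at this
    rw [hlead] at hform
    have hdf : n.descFactorial (n - 1) = n.factorial := by
      have h1 := Nat.descFactorial_succ n (n - 1)
      rw [show n - 1 + 1 = n by omega, Nat.descFactorial_self, show n - (n - 1) = 1 by omega,
        one_mul] at h1
      exact h1.symm
    rw [hdf] at hform
    rw [hform, hL4]
    have hnf : (n.factorial : ℝ) = n * ((n - 1).factorial : ℝ) := by
      exact_mod_cast (Nat.mul_factorial_pred hn.ne').symm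
    have hfp : (0 : ℝ) < ((n - 1).factorial : ℝ) := by exact_mod_cast Nat.factorial_pos _
    have hev : (C ((n.factorial) • (1 : ℂ)) * X + C (((n - 1).factorial) •
        (-((2 * ((z0 :: L).map Complex.re).sum : ℝ) : ℂ)))).eval (x : ℂ)
        = (((n.factorial : ℝ) * (x - (z0.re + (L.map Complex.re).sum) / (L.length + 1)) : ℝ) : ℂ) := by
      simp only [eval_add, eval_mul, eval_C, eval_X, List.map_cons, List.sum_cons, nsmul_eq_mul]
      rw [hnf, show (n : ℝ) = 2 * (L.length + 1) by rw [hn2]; push_cast; ring]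
      have h1 : (n.factorial : ℂ) = ((n.factorial : ℝ) : ℂ) := by push_cast; rfl
      rw [h1, hnf, show (n : ℝ) = 2 * (L.length + 1) by rw [hn2]; push_cast; ring]
      push_cast
      have h2 : (L.length : ℂ) + 1 ≠ 0 := by
        have := hl1.ne'
        exact_mod_cast this
      field_simp
      ring
    rw [hev, Complex.norm_real, Real.norm_eq_abs, abs_mul, abs_of_pos (by positivity)]
    field_simp
  · intro K x κ hx hG hI hzK g p hg hp
    have hdd : Differentiable ℂ (fun w => g w - p.eval w) := hg.1.sub p.differentiable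
    have hcd : ContDiff ℂ ⊤ (fun w => g w - p.eval w) := hdd.contDiff
    obtain ⟨u, hu, hfac⟩ := factor s (fun w => g w - p.eval w) hdd (by
      intro w
      rw [natCast_le_analyticOrderAt_iff_iteratedDeriv_eq_zero (hdd.analyticAt w)]
      intro i hi
      exact hp.2 w i (by rw [mult_eq, ← hs]; exact hi))
    have hzero : derivative^[n] p = 0 := iterate_derivative_eq_zero (by
      by_cases h0 : p = 0
      · rw [h0]; simpa using hn
      · exact (natDegree_lt_iff_degree_lt h0).2 hp.1)
    have hbn : ∀ w : ℂ, ‖w‖ ≤ 1 →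
        ‖iteratedDeriv (2 * L.length + 2) (fun w => g w - p.eval w) w‖ ≤ 1 := by
      intro w hw
      have h1 := hg.2 w hw
      have e : (fun w => g w - p.eval w) = g - fun w => p.eval w := rfl
      rw [← hn2, e, iteratedDeriv_sub hg.1.contDiff.contDiffAt p.differentiable.contDiff.contDiffAt,
        iteratedDeriv_poly, hzero]
      simpa using h1
    have hbase := base hG hx (N := 2 * L.length)
      (hcd.differentiable_iteratedDeriv _ (by exact_mod_cast WithTop.coe_lt_top _)) hbn
    have hmemK : ∀ y ∈ z0 :: L, y ∈ K := by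
      intro y hy
      have h1 := hL1 y hy
      rw [hs, Multiset.mem_map] at h1
      obtain ⟨j, _, rfl⟩ := h1
      exact hzK j
    have hch := chain hG.conv hG.sym hI hu.contDiff (hmemK z0 (by simp)) L
      (fun y hy => hmemK y (by simp [hy])) (fun w => g w - p.eval w)
      (fun w => by
        rw [hfac, hL3]
        simp only [qprod, List.map_cons, List.prod_cons]
        ring) _ _ _ hbase
    rw [show n - 1 = 2 * L.length + 1 by omega]
    exact hch

/-- The region condition: all nodes in the left half of the disc, or all in the right half, or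
all in the square `|Re z| + |Im z| ≤ 1`. -/
def Region {n : ℕ} (z : Fin n → ℂ) : Prop :=
  (∀ j, (z j).re ≤ 0) ∨ (∀ j, 0 ≤ (z j).re) ∨ (∀ j, |(z j).re| + |(z j).im| ≤ 1)

theorem top {n : ℕ} (hn : 0 < n) (z : Fin n → ℂ) (hz : ∀ j, ‖z j‖ ≤ 1) (hsc : SelfConj z)
    (hR : Region z) : Equality n (n - 1) z := by
  obtain ⟨A, hval, hup⟩ := main_upper hn z hsc
  obtain ⟨x0, hx0, hx0a⟩ := exists_far A
  have hupper : ∀ g : ℂ → ℂ, InE n g → ∀ p : ℂ[X], IsInterpolant g z p →
      ∀ x : ℝ, x ∈ Icc (-1 : ℝ) 1 →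
        ‖iteratedDeriv (n - 1) (fun w => g w - p.eval w) (x : ℂ)‖ ≤ 1 + |A| := by
    intro g hg p hp x hx
    have hx' : |x| ≤ 1 := abs_le.2 hx
    rcases hR with h | h | h
    · have := hup _ x 1 hx' (good1 hx') ⟨by simp, by simp⟩ (fun j => ⟨hz j, h j⟩) g p hg hp
      linarith [neg_abs_le A]
    · have := hup _ x (-1) hx' (good2 hx') ⟨by simp, by simp⟩ (fun j => ⟨hz j, h j⟩) g p hg hp
      linarith [le_abs_self A]
    · have := hup _ x x hx' (good3 hx') (by simp) (fun j => h j) g p hg hp
      have h1 : -(x * A) ≤ |A| := by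
        calc -(x * A) ≤ |x * A| := neg_le_abs _
          _ = |x| * |A| := abs_mul _ _
          _ ≤ 1 * |A| := mul_le_mul_of_nonneg_right hx' (abs_nonneg _)
          _ = |A| := one_mul _
      linarith
  have hmon : (nodePoly z).Monic := by
    rw [nodePoly_eq]; exact monic_multiset_prod_of_monic _ _ fun a _ => monic_X_sub_C a
  have hdeg : (nodePoly z).natDegree = n := by
    rw [nodePoly_eq, natDegree_multiset_prod_X_sub_C_eq_card]; simp
  have hnf : (n.factorial : ℂ) ≠ 0 := by exact_mod_cast n.factorial_ne_zero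
  -- the extremal function
  have hgp : (fun w : ℂ => w ^ n / (n.factorial : ℂ))
      = fun w => (C (1 / (n.factorial : ℂ)) * X ^ n).eval w := by
    funext w; simp; ring
  have hext : InE n (fun w => w ^ n / (n.factorial : ℂ)) := by
    refine ⟨by fun_prop, fun w _ => ?_⟩
    rw [hgp, iteratedDeriv_poly, iterate_derivative_C_mul,
      iterate_derivative_X_pow_eq_natCast_mul]
    simp only [Nat.descFactorial_self, Nat.sub_self, pow_zero, mul_one, eval_mul, eval_C,
      eval_natCast]
    rw [one_div, inv_mul_cancel₀ hnf]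
    simp
  have herr : (fun w : ℂ => w ^ n / (n.factorial : ℂ)
      - (C (1 / (n.factorial : ℂ)) * (X ^ n - nodePoly z)).eval w)
      = fun w => (C (1 / (n.factorial : ℂ)) * nodePoly z).eval w := by
    funext w
    simp only [eval_mul, eval_C, eval_sub, eval_pow, eval_X]
    ring
  have hint : IsInterpolant (fun w => w ^ n / (n.factorial : ℂ)) z
      (C (1 / (n.factorial : ℂ)) * (X ^ n - nodePoly z)) := by
    refine ⟨?_, ?_⟩
    · have hd : (X ^ n - nodePoly z).degree < (X ^ n : ℂ[X]).degree := by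
        apply degree_sub_lt_left
        · rw [degree_X_pow, degree_eq_natDegree hmon.ne_zero, hdeg]
        · exact pow_ne_zero _ X_ne_zero
        · rw [leadingCoeff_X_pow, hmon.leadingCoeff]
      rw [degree_X_pow] at hd
      refine lt_of_le_of_lt ?_ hd
      rw [degree_C_mul (one_div_ne_zero hnf)]
    · intro w i hi
      rw [herr, iteratedDeriv_poly, iterate_derivative_C_mul]
      have hroot : (derivative^[i] (nodePoly z)).IsRoot w := by
        apply isRoot_iterate_derivative_of_lt_rootMultiplicity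
        rw [← count_roots, nodePoly_eq, roots_multiset_prod_X_sub_C, ← mult_eq]
        exact hi
      simp only [eval_mul, eval_C]
      rw [hroot.eq_zero, mul_zero]
  refine ⟨1 + |A|, ⟨⟨x0, hx0, ?_⟩, ?_⟩, ?_, ?_⟩
  · rw [hval, hx0a]
  · rintro r ⟨x, hx, rfl⟩
    rw [hval]
    exact (abs_sub _ _).trans (by linarith [abs_le.2 hx])
  · rintro r ⟨g, hg, p, hp, x, hx, rfl⟩
    exact hupper g hg p hp x hx
  · intro y hy
    apply hy
    refine ⟨_, hext, _, hint, x0, hx0, ?_⟩
    rw [herr, iteratedDeriv_poly, iterate_derivative_C_mul, ← hx0a, ← hval x0]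
    simp only [eval_mul, eval_C, norm_mul]
    rw [norm_div, norm_one, Complex.norm_natCast]
    ring

/-- **Result.** The equality of Q1 holds for every self-conjugate list of `n` nodes in the closed
unit disc when `n = 2` (both `k = 0` and `k = 1`), and for every `n ≥ 1` with `k = n - 1` when the
nodes lie in one half of the disc (`Re z ≤ 0` for all nodes or `Re z ≥ 0` for all nodes) or in the
square `|Re z| + |Im z| ≤ 1`. -/
theorem result :
    (∀ z : Fin 2 → ℂ, (∀ j, ‖z j‖ ≤ 1) → SelfConj z → ∀ k < 2, Equality 2 k z) ∧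
    (∀ n : ℕ, 0 < n → ∀ z : Fin n → ℂ, (∀ j, ‖z j‖ ≤ 1) → SelfConj z → Region z →
      Equality n (n - 1) z) :=
  ⟨fun z hz hsc k hk => NTwo.result z hz hsc k hk, fun _ hn z hz hsc hR => top hn z hz hsc hR⟩

end Pool.Agent.Results.MP_832e94_an.TopDerivative
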