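import Mathlib
import Pool.Agent.SelfConjInterp.Near
import Pool.Agent.SelfConjInterp.TopDerivativeH

open Polynomial Set

namespace Pool.Agent.Results.MP_832e94_an.AllNodes

open Pool.Agent.Results.MP_832e94_an.NTwo Pool.Agent.Results.MP_832e94_an.TopDerivative
  Pool.Agent.SelfConjInterp

/-- reduction of the far inequality to the endpoints in `x` -/
theorem conv_ends {X r p q x : ℝ} (hr : 0 < r) (hx : |x| ≤ 1) (hd : |x - X| ≤ r)
    (hnear : ∀ y : ℝ, |y| ≤ 1 → |y - X| ≤ p + q * y)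
    (h1 : 1 - X ≤ r → (1 - X) ^ 2 + r ^ 2 ≤ 2 * r * (p + q))
    (h2 : 1 + X ≤ r → (1 + X) ^ 2 + r ^ 2 ≤ 2 * r * (p - q)) :
    (x - X) ^ 2 + r ^ 2 ≤ 2 * r * (p + q * x) := by
  have ⟨hxa, hxb⟩ := abs_le.1 hx
  have ⟨hda, hdb⟩ := abs_le.1 hd
  obtain ⟨x2, hx2, hQ2⟩ : ∃ x2 : ℝ, x ≤ x2 ∧ (x2 - X) ^ 2 + r ^ 2 - 2 * r * (p + q * x2) ≤ 0 := by
    by_cases h : X + r ≤ 1
    · refine ⟨X + r, by linarith, ?_⟩
      have h3 := hnear (X + r) (abs_le.2 ⟨by linarith, h⟩)
      rw [show X + r - X = r by ring, abs_of_pos hr] at h3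
      rw [show X + r - X = r by ring]
      nlinarith
    · refine ⟨1, hxb, ?_⟩
      have h3 := h1 (by linarith)
      linarith
  obtain ⟨x1, hx1, hQ1⟩ : ∃ x1 : ℝ, x1 ≤ x ∧ (x1 - X) ^ 2 + r ^ 2 - 2 * r * (p + q * x1) ≤ 0 := by
    by_cases h : -1 ≤ X - r
    · refine ⟨X - r, by linarith, ?_⟩
      have h3 := hnear (X - r) (abs_le.2 ⟨h, by linarith⟩)
      rw [show X - r - X = -r by ring, abs_neg, abs_of_pos hr] at h3
      rw [show X - r - X = -r by ring]
      nlinarith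
    · refine ⟨-1, hxa, ?_⟩
      have h3 := h2 (by linarith)
      nlinarith
  rcases (hx1.trans hx2).eq_or_lt with he | hlt
  · have : x = x1 := le_antisymm (by linarith) hx1
    rw [this]; linarith
  · have e : (x2 - x1) * ((x - X) ^ 2 + r ^ 2 - 2 * r * (p + q * x))
        = (x2 - x) * ((x1 - X) ^ 2 + r ^ 2 - 2 * r * (p + q * x1))
        + (x - x1) * ((x2 - X) ^ 2 + r ^ 2 - 2 * r * (p + q * x2))
        - (x2 - x1) * (x - x1) * (x2 - x) := by ring
    have t1 : (x2 - x) * ((x1 - X) ^ 2 + r ^ 2 - 2 * r * (p + q * x1)) ≤ 0 :=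
      mul_nonpos_of_nonneg_of_nonpos (by linarith) hQ1
    have t2 : (x - x1) * ((x2 - X) ^ 2 + r ^ 2 - 2 * r * (p + q * x2)) ≤ 0 :=
      mul_nonpos_of_nonneg_of_nonpos (by linarith) hQ2
    have t3 : 0 ≤ (x2 - x1) * (x - x1) * (x2 - x) :=
      mul_nonneg (mul_nonneg (by linarith) (by linarith)) (by linarith)
    have key : (x2 - x1) * ((x - X) ^ 2 + r ^ 2 - 2 * r * (p + q * x)) ≤ 0 := by
      rw [e]; linarith
    have := nonpos_of_mul_nonpos_right key (by linarith)
    linarith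

theorem end_neg_one {X r : ℝ} (hr : 0 < r) (hd : X ^ 2 + r ^ 2 ≤ 1) (h1 : 1 + X ≤ r) :
    (1 + X) ^ 2 + r ^ 2 ≤ 2 * r * (27 / 25 + 23 / 25 * X) := by
  have := end_one (X := -X) hr (by rw [neg_sq]; exact hd) (by linarith)
  have e : (1 - -X) ^ 2 + r ^ 2 = (1 + X) ^ 2 + r ^ 2 := by ring
  rw [e] at this
  linarith

theorem abs_le_of_disc {X r : ℝ} (h : X ^ 2 + r ^ 2 ≤ 1) : |X| ≤ 1 :=
  abs_le_one_iff_mul_self_le_one.2 (by nlinarith [sq_nonneg r])

theorem near_aux {y X : ℝ} (hy : |y| ≤ 1) (hX : |X| ≤ 1) : |y - X| ≤ 1 - y * X := by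
  have ⟨h2, h3⟩ := abs_le.1 hy
  have ⟨h4, h5⟩ := abs_le.1 hX
  rw [abs_le]
  constructor <;> nlinarith

theorem goodDisc {x : ℝ} (hx : |x| ≤ 1) :
    GoodA x (27 / 25) (23 / 25 * x) {w : ℂ | ‖w‖ ≤ 1} where
  conv := by
    have e : {w : ℂ | ‖w‖ ≤ 1} = Metric.closedBall 0 1 := by ext w; simp
    rw [e]
    exact convex_closedBall _ _
  disc := fun w hw => hw
  sym := fun w hw => by simpa using hw
  near := by
    intro X r hr hm
    have hX := abs_le_of_disc (sq_add_sq_le hm)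
    have h1 := near_aux hx hX
    have h2 : 0 ≤ 1 + x * X := by
      have := near_aux (y := x) (X := -X) hx (by rwa [abs_neg])
      have := abs_nonneg (x - -X)
      linarith
    linarith
  far := by
    intro X r hr hm hd
    have hdisc := sq_add_sq_le hm
    have hX := abs_le_of_disc hdisc
    have h := conv_ends (p := 27 / 25) (q := -(23 / 25 * X)) hr hx hd (fun y hy => by
        have h1 := near_aux hy hX
        have h2 : 0 ≤ 1 + y * X := by
          have := near_aux (y := y) (X := -X) hy (by rwa [abs_neg])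
          have := abs_nonneg (y - -X)
          linarith
        linarith)
      (fun h1 => by have := end_one hr hdisc h1; linarith)
      (fun h1 => by have := end_neg_one hr hdisc h1; linarith)
    have e : 27 / 25 + -(23 / 25 * X) * x = 27 / 25 - 23 / 25 * x * X := by ring
    rw [e] at h
    exact h

theorem goodLeft {x : ℝ} (hx : |x| ≤ 1) :
    GoodA x ((1 + x) / 2 + (1 - x) / 2 * (27 / 25)) ((1 + x) / 2 - (1 - x) / 2 * (23 / 25))
      {w : ℂ | ‖w‖ ≤ 1 ∧ |w.im| ≤ 1 - w.re} where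
  conv := by
    have e : {w : ℂ | ‖w‖ ≤ 1 ∧ |w.im| ≤ 1 - w.re}
        = Metric.closedBall 0 1 ∩ {w : ℂ | |w.im| ≤ 1 - w.re} := by
      ext w; simp
    rw [e]
    refine (convex_closedBall _ _).inter ?_
    intro u hu v hv s t hs ht hst
    simp only [mem_ofPred_eq, Complex.add_re, Complex.real_smul, Complex.mul_re,
      Complex.ofReal_re, Complex.ofReal_im, zero_mul, sub_zero, Complex.add_im, Complex.mul_im,
      add_zero] at hu hv ⊢
    have h2 := abs_add_le (s * u.im) (t * v.im)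
    rw [abs_mul, abs_mul, abs_of_nonneg hs, abs_of_nonneg ht] at h2
    nlinarith
  disc := fun w hw => hw.1
  sym := fun w hw => ⟨by simpa using hw.1, by simpa using hw.2⟩
  near := by
    intro X r hr hm
    have hX := abs_le_of_disc (sq_add_sq_le hm.1)
    have h1 := near_aux hx hX
    have ⟨hxa, hxb⟩ := abs_le.1 hx
    have ⟨hXa, hXb⟩ := abs_le.1 hX
    nlinarith [mul_nonneg (sub_nonneg.2 hxb) (sub_nonneg.2 hXb)]
  far := by
    intro X r hr hm hd
    have hdisc := sq_add_sq_le hm.1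
    have hX := abs_le_of_disc hdisc
    have ⟨hXa, hXb⟩ := abs_le.1 hX
    have hrX : r ≤ 1 - X := by
      have := hm.2
      rwa [re_eq, im_eq, abs_of_pos hr] at this
    have h := conv_ends (p := (1 - X) / 2 + (27 / 25 + 23 / 25 * X) / 2)
      (q := (1 - X) / 2 - (27 / 25 + 23 / 25 * X) / 2) hr hx hd (fun y hy => by
        have h1 := near_aux hy hX
        have ⟨hya, hyb⟩ := abs_le.1 hy
        nlinarith [mul_nonneg (sub_nonneg.2 hyb) (sub_nonneg.2 hXb)])
      (fun h1 => by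
        have : r = 1 - X := le_antisymm hrX h1
        rw [this]; nlinarith)
      (fun h1 => by have := end_neg_one hr hdisc h1; linarith)
    have e : (1 - X) / 2 + (27 / 25 + 23 / 25 * X) / 2
        + ((1 - X) / 2 - (27 / 25 + 23 / 25 * X) / 2) * x
        = ((1 + x) / 2 + (1 - x) / 2 * (27 / 25)) - ((1 + x) / 2 - (1 - x) / 2 * (23 / 25)) * X := by
      ring
    rw [e] at h
    exact h

theorem goodRight {x : ℝ} (hx : |x| ≤ 1) :
    GoodA x ((1 - x) / 2 + (1 + x) / 2 * (27 / 25)) ((1 + x) / 2 * (23 / 25) - (1 - x) / 2)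
      {w : ℂ | ‖w‖ ≤ 1 ∧ |w.im| ≤ 1 + w.re} where
  conv := by
    have e : {w : ℂ | ‖w‖ ≤ 1 ∧ |w.im| ≤ 1 + w.re}
        = Metric.closedBall 0 1 ∩ {w : ℂ | |w.im| ≤ 1 + w.re} := by
      ext w; simp
    rw [e]
    refine (convex_closedBall _ _).inter ?_
    intro u hu v hv s t hs ht hst
    simp only [mem_ofPred_eq, Complex.add_re, Complex.real_smul, Complex.mul_re,
      Complex.ofReal_re, Complex.ofReal_im, zero_mul, sub_zero, Complex.add_im, Complex.mul_im,
      add_zero] at hu hv ⊢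
    have h2 := abs_add_le (s * u.im) (t * v.im)
    rw [abs_mul, abs_mul, abs_of_nonneg hs, abs_of_nonneg ht] at h2
    nlinarith
  disc := fun w hw => hw.1
  sym := fun w hw => ⟨by simpa using hw.1, by simpa using hw.2⟩
  near := by
    intro X r hr hm
    have hX := abs_le_of_disc (sq_add_sq_le hm.1)
    have h1 := near_aux hx hX
    have ⟨hxa, hxb⟩ := abs_le.1 hx
    have ⟨hXa, hXb⟩ := abs_le.1 hX
    nlinarith [mul_nonneg (show 0 ≤ 1 + x by linarith) (show 0 ≤ 1 + X by linarith)]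
  far := by
    intro X r hr hm hd
    have hdisc := sq_add_sq_le hm.1
    have hX := abs_le_of_disc hdisc
    have ⟨hXa, hXb⟩ := abs_le.1 hX
    have hrX : r ≤ 1 + X := by
      have := hm.2
      rwa [re_eq, im_eq, abs_of_pos hr] at this
    have h := conv_ends (p := (1 + X) / 2 + (27 / 25 - 23 / 25 * X) / 2)
      (q := (27 / 25 - 23 / 25 * X) / 2 - (1 + X) / 2) hr hx hd (fun y hy => by
        have h1 := near_aux hy hX
        have ⟨hya, hyb⟩ := abs_le.1 hy
        nlinarith [mul_nonneg (show 0 ≤ 1 + y by linarith) (show 0 ≤ 1 + X by linarith)])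
      (fun h1 => by have := end_one hr hdisc h1; linarith)
      (fun h1 => by
        have : r = 1 + X := le_antisymm hrX h1
        rw [this]; nlinarith)
    have e : (1 + X) / 2 + (27 / 25 - 23 / 25 * X) / 2
        + ((27 / 25 - 23 / 25 * X) / 2 - (1 + X) / 2) * x
        = ((1 - x) / 2 + (1 + x) / 2 * (27 / 25)) - ((1 + x) / 2 * (23 / 25) - (1 - x) / 2) * X := by
      ring
    rw [e] at h
    exact h

/-- from the upper bound to the equality of Q1 for `k = n - 1` -/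
theorem equality_of_upper {n : ℕ} (hn : 0 < n) (z : Fin n → ℂ) (hsc : SelfConj z)
    (hupper : ∀ g : ℂ → ℂ, InE n g → ∀ p : ℂ[X], IsInterpolant g z p →
      ∀ x : ℝ, x ∈ Icc (-1 : ℝ) 1 →
        ‖iteratedDeriv (n - 1) (fun w => g w - p.eval w) (x : ℂ)‖ ≤ 1 + |mean z|) :
    Equality n (n - 1) z := by
  obtain ⟨hval, -⟩ := main_upperA hn z hsc
  obtain ⟨x0, hx0, hx0a⟩ := exists_far (mean z)
  have hmon : (nodePoly z).Monic := by
    rw [nodePoly_eq]; exact monic_multiset_prod_of_monic _ _ fun a _ => monic_X_sub_C a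
  have hdeg : (nodePoly z).natDegree = n := by
    rw [nodePoly_eq, natDegree_multiset_prod_X_sub_C_eq_card]; simp
  have hnf : (n.factorial : ℂ) ≠ 0 := by exact_mod_cast n.factorial_ne_zero
  have hgp : (fun w : ℂ => w ^ n / (n.factorial : ℂ))
      = fun w => (C (1 / (n.factorial : ℂ)) * X ^ n).eval w := by
    funext w; simp; ring
  have hext : InE n (fun w => w ^ n / (n.factorial : ℂ)) := by
    refine ⟨by fun_prop, fun w _ => ?_⟩
    rw [hgp, iteratedDeriv_poly, iterate_derivative_C_mul,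
      iterate_derivative_X_pow_eq_natCast_mul]
    simp only [Nat.descFactorial_self, Nat.sub_self, pow_zero, mul_one, eval_mul, eval_C,
      eval_natCast]
    rw [one_div, inv_mul_cancel₀ hnf]
    simp
  have herr : (fun w : ℂ => w ^ n / (n.factorial : ℂ)
      - (C (1 / (n.factorial : ℂ)) * (X ^ n - nodePoly z)).eval w)
      = fun w => (C (1 / (n.factorial : ℂ)) * nodePoly z).eval w := by
    funext w
    simp only [eval_mul, eval_C, eval_sub, eval_pow, eval_X]
    ring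
  have hint : IsInterpolant (fun w => w ^ n / (n.factorial : ℂ)) z
      (C (1 / (n.factorial : ℂ)) * (X ^ n - nodePoly z)) := by
    refine ⟨?_, ?_⟩
    · have hd : (X ^ n - nodePoly z).degree < (X ^ n : ℂ[X]).degree := by
        apply degree_sub_lt_left
        · rw [degree_X_pow, degree_eq_natDegree hmon.ne_zero, hdeg]
        · exact pow_ne_zero _ X_ne_zero
        · rw [leadingCoeff_X_pow, hmon.leadingCoeff]
      rw [degree_X_pow] at hd
      refine lt_of_le_of_lt ?_ hd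
      rw [degree_C_mul (one_div_ne_zero hnf)]
    · intro w i hi
      rw [herr, iteratedDeriv_poly, iterate_derivative_C_mul]
      have hroot : (derivative^[i] (nodePoly z)).IsRoot w := by
        apply isRoot_iterate_derivative_of_lt_rootMultiplicity
        rw [← count_roots, nodePoly_eq, roots_multiset_prod_X_sub_C, ← mult_eq]
        exact hi
      simp only [eval_mul, eval_C]
      rw [hroot.eq_zero, mul_zero]
  refine ⟨1 + |mean z|, ⟨⟨x0, hx0, ?_⟩, ?_⟩, ?_, ?_⟩
  · rw [hval, hx0a]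
  · rintro r ⟨x, hx, rfl⟩
    rw [hval]
    exact (abs_sub _ _).trans (by linarith [abs_le.2 hx])
  · rintro r ⟨g, hg, p, hp, x, hx, rfl⟩
    exact hupper g hg p hp x hx
  · intro y hy
    apply hy
    refine ⟨_, hext, _, hint, x0, hx0, ?_⟩
    rw [herr, iteratedDeriv_poly, iterate_derivative_C_mul, ← hx0a, ← hval x0]
    simp only [eval_mul, eval_C, norm_mul]
    rw [norm_div, norm_one, Complex.norm_natCast]
    ring

/-- `k = n - 1`, every node list in the disc: the conjectured value is correct up to the factor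
`27/25`. -/
theorem near_sharp {n : ℕ} (hn : 0 < n) (z : Fin n → ℂ) (hz : ∀ j, ‖z j‖ ≤ 1)
    (hsc : SelfConj z) :
    ∃ M : ℝ, IsGreatest {r : ℝ | ∃ x : ℝ, x ∈ Icc (-1 : ℝ) 1 ∧
        r = ‖(derivative^[n - 1] (nodePoly z)).eval (x : ℂ)‖ / (n.factorial : ℝ)} M ∧
      ∀ g : ℂ → ℂ, InE n g → ∀ p : ℂ[X], IsInterpolant g z p →
        ∀ x : ℝ, x ∈ Icc (-1 : ℝ) 1 →
          ‖iteratedDeriv (n - 1) (fun w => g w - p.eval w) (x : ℂ)‖ ≤ 27 / 25 * M := by
  obtain ⟨hval, hup⟩ := main_upperA hn z hsc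
  obtain ⟨x0, hx0, hx0a⟩ := exists_far (mean z)
  refine ⟨1 + |mean z|, ⟨⟨x0, hx0, by rw [hval, hx0a]⟩, ?_⟩, ?_⟩
  · rintro r ⟨x, hx, rfl⟩
    rw [hval]
    exact (abs_sub _ _).trans (by linarith [abs_le.2 hx])
  · intro g hg p hp x hx
    have hx' : |x| ≤ 1 := abs_le.2 hx
    have := hup _ x _ _ hx' (goodDisc hx') (by simp) (fun j => hz j) g p hg hp
    have h1 : -(x * mean z) ≤ |mean z| := by
      calc -(x * mean z) ≤ |x * mean z| := neg_le_abs _
        _ = |x| * |mean z| := abs_mul _ _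
        _ ≤ 1 * |mean z| := mul_le_mul_of_nonneg_right hx' (abs_nonneg _)
        _ = |mean z| := one_mul _
    have h2 := abs_nonneg (mean z)
    nlinarith

theorem left {n : ℕ} (hn : 0 < n) (z : Fin n → ℂ) (hz : ∀ j, ‖z j‖ ≤ 1) (hsc : SelfConj z)
    (hR : ∀ j, |(z j).im| ≤ 1 - (z j).re) (hm : mean z ≤ -(1 / 24)) :
    Equality n (n - 1) z := by
  obtain ⟨-, hup⟩ := main_upperA hn z hsc
  refine equality_of_upper hn z hsc fun g hg p hp x hx => ?_
  have hx' : |x| ≤ 1 := abs_le.2 hx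
  have := hup _ x _ _ hx' (goodLeft hx') ⟨by simp, by simp⟩ (fun j => ⟨hz j, hR j⟩) g p hg hp
  rw [abs_of_nonpos (by linarith)]
  nlinarith [mul_nonneg (show 0 ≤ 1 - x by linarith [hx.2]) (show 0 ≤ -(1 / 24) - mean z by linarith)]

theorem right {n : ℕ} (hn : 0 < n) (z : Fin n → ℂ) (hz : ∀ j, ‖z j‖ ≤ 1) (hsc : SelfConj z)
    (hR : ∀ j, |(z j).im| ≤ 1 + (z j).re) (hm : 1 / 24 ≤ mean z) :
    Equality n (n - 1) z := by
  obtain ⟨-, hup⟩ := main_upperA hn z hsc
  refine equality_of_upper hn z hsc fun g hg p hp x hx => ?_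
  have hx' : |x| ≤ 1 := abs_le.2 hx
  have := hup _ x _ _ hx' (goodRight hx') ⟨by simp, by simp⟩ (fun j => ⟨hz j, hR j⟩) g p hg hp
  rw [abs_of_nonneg (by linarith)]
  nlinarith [mul_nonneg (show 0 ≤ 1 + x by linarith [hx.1]) (show 0 ≤ mean z - 1 / 24 by linarith)]

/-- **Result.** For `k = n - 1`:
1. for every `n ≥ 1` and every self-conjugate list of `n` nodes in the closed unit disc, the
   supremum in Q1 is at most `27/25` times the conjectured value (and at least that value);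
2. the equality of Q1 holds when the nodes lie in the half disc `Re z ≤ 0`, or in the half disc
   `Re z ≥ 0`, or in the square `|Re z| + |Im z| ≤ 1`, or in the region `|Im z| ≤ 1 - Re z` with
   mean at most `-1/24`, or in the region `|Im z| ≤ 1 + Re z` with mean at least `1/24`.
For `n = 2` the equality of Q1 holds for every self-conjugate pair and `k = 0, 1`. -/
theorem result :
    (∀ n : ℕ, 0 < n → ∀ z : Fin n → ℂ, (∀ j, ‖z j‖ ≤ 1) → SelfConj z →
      (∃ M : ℝ, IsGreatest {r : ℝ | ∃ x : ℝ, x ∈ Icc (-1 : ℝ) 1 ∧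
          r = ‖(derivative^[n - 1] (nodePoly z)).eval (x : ℂ)‖ / (n.factorial : ℝ)} M ∧
        ∀ g : ℂ → ℂ, InE n g → ∀ p : ℂ[X], IsInterpolant g z p →
          ∀ x : ℝ, x ∈ Icc (-1 : ℝ) 1 →
            ‖iteratedDeriv (n - 1) (fun w => g w - p.eval w) (x : ℂ)‖ ≤ 27 / 25 * M) ∧
      (((∀ j, (z j).re ≤ 0) ∨ (∀ j, 0 ≤ (z j).re) ∨ (∀ j, |(z j).re| + |(z j).im| ≤ 1) ∨
        ((∀ j, |(z j).im| ≤ 1 - (z j).re) ∧ (∑ j, (z j).re) / n ≤ -(1 / 24)) ∨
        ((∀ j, |(z j).im| ≤ 1 + (z j).re) ∧ 1 / 24 ≤ (∑ j, (z j).re) / n)) →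
        Equality n (n - 1) z)) ∧
    (∀ z : Fin 2 → ℂ, (∀ j, ‖z j‖ ≤ 1) → SelfConj z → ∀ k < 2, Equality 2 k z) := by
  refine ⟨fun n hn z hz hsc => ⟨near_sharp hn z hz hsc, ?_⟩,
    fun z hz hsc k hk => NTwo.result z hz hsc k hk⟩
  rintro (h | h | h | ⟨h, hm⟩ | ⟨h, hm⟩)
  · exact top hn z hz hsc (Or.inl h)
  · exact top hn z hz hsc (Or.inr (Or.inl h))
  · exact top hn z hz hsc (Or.inr (Or.inr h))
  · exact left hn z hz hsc h hm
  · exact right hn z hz hsc h hm

end Pool.Agent.Results.MP_832e94_an.AllNodes
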